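import Pool.Agent.TH829.Kim.NH
import Mathlib.RingTheory.Nilpotent.Lemmas
import Mathlib.RingTheory.Polynomial.Basic
import Mathlib.Algebra.Polynomial.AlgebraMap
import Mathlib.Algebra.Polynomial.FieldDivision

/-!
# Algebras with a trace: even and odd idempotents
-/

namespace Pool.Agent.TH829.Kim

variable {R : Type*} [Ring R] [Algebra ℚ R] (tr : R →ₗ[ℚ] ℚ) (η : ℚ)

/-- The contraction of `n` of the `n + 1` factors of the (anti)symmetrization of
`p 0 ⊗ ⋯ ⊗ p n`. -/
noncomputable def K : ∀ n : ℕ, (Fin (n + 1) → R) → R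
  | 0, p => p 0
  | n + 1, p => tr (p 0) • K n (fun i => p i.succ) +
      η • ∑ i, K n (Function.update (fun i => p i.succ) i (p 0 * p i.succ))

/-- The contraction of all factors of the (anti)symmetrization of `p 0 ⊗ ⋯ ⊗ p (n - 1)`. -/
noncomputable def F : ∀ n : ℕ, (Fin n → R) → ℚ
  | 0, _ => 1
  | n + 1, p => tr (p 0) * F n (fun i => p i.succ) +
      η * ∑ i, F n (Function.update (fun i => p i.succ) i (p 0 * p i.succ))

lemma K_succ (n : ℕ) (p : Fin (n + 2) → R) : K tr η (n + 1) p =
    tr (p 0) • K tr η n (fun i => p i.succ) +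
      η • ∑ i, K tr η n (Function.update (fun i => p i.succ) i (p 0 * p i.succ)) := rfl

lemma F_succ (n : ℕ) (p : Fin (n + 1) → R) : F tr η (n + 1) p =
    tr (p 0) * F tr η n (fun i => p i.succ) +
      η * ∑ i, F tr η n (Function.update (fun i => p i.succ) i (p 0 * p i.succ)) := rfl

lemma update_pow (h : R) {n : ℕ} (a : Fin (n + 1) → ℕ) (i : Fin n) :
    Function.update (fun j : Fin n => h ^ a j.succ) i (h ^ a 0 * h ^ a i.succ) =
      fun j => h ^ (Function.update (fun j : Fin n => a j.succ) i (a 0 + a i.succ)) j := by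
  funext j
  by_cases hj : j = i
  · subst hj
    rw [Function.update_self, Function.update_self, pow_add]
  · rw [Function.update_of_ne hj, Function.update_of_ne hj]

lemma sum_update {n : ℕ} (a : Fin (n + 1) → ℕ) (i : Fin n) :
    ∑ j, (Function.update (fun j : Fin n => a j.succ) i (a 0 + a i.succ)) j = ∑ j, a j := by
  rw [Finset.sum_update_of_mem (Finset.mem_univ i), Fin.sum_univ_succ a, add_assoc]
  congr 1
  rw [← Finset.add_sum_erase Finset.univ (fun j : Fin n => a j.succ) (Finset.mem_univ i),
    Finset.sdiff_singleton_eq_erase]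

lemma update_pos {n : ℕ} {a : Fin (n + 1) → ℕ} (ha : ∀ i, 1 ≤ a i) (i j : Fin n) :
    1 ≤ (Function.update (fun j : Fin n => a j.succ) i (a 0 + a i.succ)) j := by
  by_cases hj : j = i
  · subst hj
    rw [Function.update_self]
    have := ha 0
    omega
  · rw [Function.update_of_ne hj]
    exact ha _

/-- If all traces vanish only the terms with a single cycle remain. -/
lemma K_of_tr_zero {h : R} (ht : ∀ k, 1 ≤ k → tr (h ^ k) = 0) (n : ℕ) (a : Fin (n + 1) → ℕ)
    (ha : ∀ i, 1 ≤ a i) :
    K tr η n (fun i => h ^ a i) = (η ^ n * n.factorial) • h ^ (∑ i, a i) := by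
  induction n with
  | zero => simp [K]
  | succ n ih =>
    rw [K_succ, ht _ (ha 0), zero_smul, zero_add]
    have h1 : ∀ i ∈ (Finset.univ : Finset (Fin (n + 1))), K tr η n (Function.update
        (fun j : Fin (n + 1) => h ^ a j.succ) i (h ^ a 0 * h ^ a i.succ)) =
        (η ^ n * n.factorial) • h ^ (∑ i, a i) := by
      intro i _
      rw [update_pow, ih _ (update_pos ha i), sum_update]
    rw [Finset.sum_congr rfl h1, Finset.sum_const, Finset.card_univ, Fintype.card_fin,
      ← Nat.cast_smul_eq_nsmul ℚ, smul_smul, smul_smul]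
    congr 1
    rw [Nat.factorial_succ, pow_succ]
    push_cast
    ring

/-- The theorem of Cayley and Hamilton. -/
lemma K_eq_poly (h : R) (n : ℕ) (a : Fin (n + 1) → ℕ) (ha : ∀ i, 1 ≤ a i) :
    ∃ q : Polynomial ℚ, q.degree < ((∑ i, a i : ℕ) : WithBot ℕ) ∧
      K tr η n (fun i => h ^ a i) =
        (η ^ n * n.factorial) • h ^ (∑ i, a i) + Polynomial.aeval h q := by
  induction n with
  | zero =>
    refine ⟨0, ?_, by simp [K]⟩
    rw [Polynomial.degree_zero]
    exact WithBot.bot_lt_coe _
  | succ n ih =>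
    rw [K_succ]
    beta_reduce
    have h1 : ∀ i : Fin (n + 1), ∃ q : Polynomial ℚ, q.degree < ((∑ i, a i : ℕ) : WithBot ℕ) ∧
        K tr η n (Function.update (fun j : Fin (n + 1) => h ^ a j.succ) i
          (h ^ a 0 * h ^ a i.succ)) = (η ^ n * n.factorial) • h ^ (∑ i, a i) +
            Polynomial.aeval h q := by
      intro i
      obtain ⟨q, hq, hq'⟩ := ih _ (update_pos ha i)
      rw [sum_update] at hq
      refine ⟨q, hq, ?_⟩
      rw [update_pow, hq', sum_update]
    choose q hq hq' using h1
    obtain ⟨q0, hq0, hq0'⟩ := ih (fun i => a i.succ) (fun i => ha _)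
    have hlt : ∑ i : Fin (n + 1), a i.succ < ∑ i, a i := by
      rw [Fin.sum_univ_succ a]
      have := ha 0
      omega
    have hlt' : ((∑ i : Fin (n + 1), a i.succ : ℕ) : WithBot ℕ) < ((∑ i, a i : ℕ) : WithBot ℕ) := by
      exact_mod_cast hlt
    refine ⟨tr (h ^ a 0) • (Polynomial.C (η ^ n * n.factorial : ℚ) *
      Polynomial.X ^ (∑ i : Fin (n + 1), a i.succ) + q0) + η • ∑ i, q i, ?_, ?_⟩
    · refine lt_of_le_of_lt (Polynomial.degree_add_le _ _) (max_lt ?_ ?_)
      · refine lt_of_le_of_lt (Polynomial.degree_smul_le _ _) ?_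
        refine lt_of_le_of_lt (Polynomial.degree_add_le _ _) (max_lt ?_ (hq0.trans hlt'))
        exact lt_of_le_of_lt (Polynomial.degree_C_mul_X_pow_le _ _) hlt'
      · refine lt_of_le_of_lt (Polynomial.degree_smul_le _ _) ?_
        refine lt_of_le_of_lt (Polynomial.degree_sum_le _ _) ?_
        rw [Finset.sup_lt_iff (WithBot.bot_lt_coe _)]
        exact fun i _ => hq i
    · rw [hq0', Finset.sum_congr rfl (fun i _ => hq' i), Finset.sum_add_distrib, Finset.sum_const,
        Finset.card_univ, Fintype.card_fin, ← Nat.cast_smul_eq_nsmul ℚ, map_add, map_smul, map_add,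
        map_smul, map_sum, map_mul (Polynomial.aeval h), map_pow (Polynomial.aeval h),
        Polynomial.aeval_X, Polynomial.aeval_C, ← Algebra.smul_def, smul_add η, smul_smul η]
      have e : (η ^ (n + 1) * ((n + 1).factorial : ℚ)) =
          η * ((n + 1 : ℕ) * (η ^ n * (n.factorial : ℚ))) := by
        rw [Nat.factorial_succ, pow_succ]
        push_cast
        ring
      rw [e, smul_smul, mul_assoc η]
      abel

/-- The contraction of the (anti)symmetrization of an idempotent. -/
lemma K_idem {ε : R} (hε : ε * ε = ε) (n : ℕ) :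
    K tr η n (fun _ => ε) = (∏ j ∈ Finset.range n, (tr ε + η * (j + 1))) • ε := by
  induction n with
  | zero => simp [K]
  | succ n ih =>
    rw [K_succ]
    have h1 : ∀ i : Fin (n + 1), Function.update (fun _ : Fin (n + 1) => ε) i (ε * ε) =
        fun _ => ε := by
      intro i
      rw [hε, Function.update_eq_self_iff]
    simp only [h1, ih]
    rw [Finset.sum_const, Finset.card_univ, Fintype.card_fin, ← Nat.cast_smul_eq_nsmul ℚ,
      smul_smul, smul_smul, smul_smul, ← add_smul, Finset.prod_range_succ]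
    congr 1
    push_cast
    ring

lemma F_of_two_le {g : R} (hg : ∀ k, 2 ≤ k → tr (g ^ k) = 0) (n : ℕ) (a : Fin n → ℕ)
    (ha : ∀ i, 1 ≤ a i) (ha' : ∃ i, 2 ≤ a i) : F tr η n (fun i => g ^ a i) = 0 := by
  induction n with
  | zero => obtain ⟨i, -⟩ := ha'; exact i.elim0
  | succ n ih =>
    rw [F_succ]
    have h1 : ∀ i ∈ (Finset.univ : Finset (Fin n)), F tr η n (Function.update
        (fun j : Fin n => g ^ a j.succ) i (g ^ a 0 * g ^ a i.succ)) = 0 := by
      intro i _
      rw [update_pow]
      apply ih _ (update_pos ha i)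
      refine ⟨i, ?_⟩
      rw [Function.update_self]
      have h2 := ha 0
      have h3 := ha i.succ
      omega
    rw [Finset.sum_congr rfl h1, Finset.sum_const_zero, mul_zero, add_zero]
    by_cases h2 : 2 ≤ a 0
    · rw [hg _ h2, zero_mul]
    · rw [ih (fun i => a i.succ) (fun i => ha _) ?_, mul_zero]
      obtain ⟨i, hi⟩ := ha'
      have hi0 : i ≠ 0 := by
        rintro rfl
        exact h2 hi
      obtain ⟨j, rfl⟩ := Fin.exists_succ_eq.2 hi0
      exact ⟨j, hi⟩

lemma F_const {g : R} (hg : ∀ k, 2 ≤ k → tr (g ^ k) = 0) (n : ℕ) :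
    F tr η n (fun _ => g) = tr g ^ n := by
  induction n with
  | zero => simp [F]
  | succ n ih =>
    rw [F_succ]
    have h1 : ∀ i ∈ (Finset.univ : Finset (Fin n)), F tr η n (Function.update
        (fun _ : Fin n => g) i (g * g)) = 0 := by
      intro i _
      have e : Function.update (fun _ : Fin n => g) i (g * g) =
          fun j => g ^ (Function.update (fun _ : Fin n => 1) i 2) j := by
        funext j
        by_cases hj : j = i
        · subst hj
          rw [Function.update_self, Function.update_self, sq]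
        · rw [Function.update_of_ne hj, Function.update_of_ne hj, pow_one]
      rw [e]
      apply F_of_two_le tr η hg
      · intro j
        by_cases hj : j = i
        · subst hj
          rw [Function.update_self]
          norm_num
        · rw [Function.update_of_ne hj]
      · exact ⟨i, by rw [Function.update_self]⟩
    rw [Finset.sum_congr rfl h1, Finset.sum_const_zero, mul_zero, add_zero, ih, pow_succ']

/-- The trace of a nilpotent element of a finite-dimensional piece vanishes. -/
lemma tr_eq_zero_of_isNilpotent {h : R} (hn : IsNilpotent h) {n : ℕ}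
    (hF : ∀ k, 1 ≤ k → F tr η (n + 1) (fun _ => h ^ k) = 0) (k : ℕ) (hk : 1 ≤ k) :
    tr (h ^ k) = 0 := by
  obtain ⟨N, hN⟩ := hn
  have key : ∀ m k : ℕ, 1 ≤ k → N ≤ k + m → tr (h ^ k) = 0 := by
    intro m
    induction m with
    | zero =>
      intro k _ hk
      rw [Nat.add_zero] at hk
      rw [pow_eq_zero_of_le hk hN, map_zero]
    | succ m ih =>
      intro k hk hkm
      have h1 : ∀ l, 2 ≤ l → tr ((h ^ k) ^ l) = 0 := by
        intro l hl
        rw [← pow_mul]
        apply ih
        · exact Nat.mul_pos hk (by omega)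
        · have : k * 2 ≤ k * l := Nat.mul_le_mul_left k hl
          omega
      have h2 := F_const tr η h1 (n + 1)
      rw [hF k hk] at h2
      exact pow_eq_zero_iff (by omega) |>.1 h2.symm
  exact key N k hk (by omega)

/-- All (anti)symmetrizations of `n + 1` elements of `e R` vanish (after contraction). -/
structure Killed (e : R) (n : ℕ) : Prop where
  K_eq : ∀ a : Fin (n + 1) → R, (∀ i, e * a i = a i) → K tr η n a = 0
  F_eq : ∀ a : Fin (n + 1) → R, (∀ i, e * a i = a i) → F tr η (n + 1) a = 0

variable {tr}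

/-- A composition of a morphism from an even piece to an odd one and of a morphism in the other
direction is nilpotent and has trace zero. -/
theorem even_odd (hsym : ∀ a b, tr (a * b) = tr (b * a)) {e g : R} (he : e * e = e)
    (hg : g * g = g) {n m : ℕ} (hE : Killed tr (-1) e n) (hO : Killed tr 1 g m) (b c : R) :
    tr ((e * b * g) * (g * c * e)) = 0 := by
  set h := (e * b * g) * (g * c * e) with hh
  have heh : e * h = h := by
    rw [hh]
    simp only [← mul_assoc, he]
  have hehk : ∀ k, 1 ≤ k → e * h ^ k = h ^ k := by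
    intro k hk
    obtain ⟨j, rfl⟩ := Nat.exists_eq_add_of_le' hk
    rw [pow_succ', ← mul_assoc, heh]
  -- the equation of `h`
  obtain ⟨q, hq, hq'⟩ := K_eq_poly tr (-1) h n (fun _ => 1) (fun _ => le_rfl)
  simp only [pow_one, Finset.sum_const, Finset.card_univ, Fintype.card_fin, smul_eq_mul,
    mul_one] at hq hq'
  rw [hE.K_eq _ (fun _ => heh)] at hq'
  set c0 : ℚ := (-1) ^ n * n.factorial with hc0
  have hc0' : c0 ≠ 0 := by
    rw [hc0]
    positivity
  let χ : Polynomial ℚ := Polynomial.C c0 * Polynomial.X ^ (n + 1) + q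
  have hχ : χ ≠ 0 := by
    intro h0
    have h1 : χ.coeff (n + 1) = c0 := by
      simp only [χ, Polynomial.coeff_add, Polynomial.coeff_C_mul, Polynomial.coeff_X_pow,
        if_true, mul_one]
      rw [Polynomial.coeff_eq_zero_of_degree_lt hq, add_zero]
    rw [h0, Polynomial.coeff_zero] at h1
    exact hc0' h1.symm
  have hχh : Polynomial.aeval h χ = 0 := by
    simp only [χ, map_add, map_mul, map_pow, Polynomial.aeval_X, Polynomial.aeval_C]
    rw [← Algebra.smul_def, ← hq']
  have hχX : Polynomial.X * χ ≠ 0 := mul_ne_zero Polynomial.X_ne_zero hχ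
  obtain ⟨ψ, hψ, hψ'⟩ := Polynomial.exists_eq_pow_rootMultiplicity_mul_and_not_dvd
    (Polynomial.X * χ) hχX 0
  rw [Polynomial.C_0, sub_zero] at hψ hψ'
  set k := (Polynomial.X * χ).rootMultiplicity 0 with hk
  have hk1 : 1 ≤ k := by
    by_contra hk0
    have hk0 : k = 0 := by omega
    rw [hk0, pow_zero, one_mul] at hψ
    exact hψ' (hψ ▸ dvd_mul_right _ _)
  have hcop : IsCoprime (Polynomial.X ^ k : Polynomial ℚ) ψ :=
    IsCoprime.pow_left ((Polynomial.irreducible_X.coprime_iff_not_dvd).2 hψ')
  obtain ⟨u, v, huv⟩ := hcop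
  have hprod : Polynomial.aeval h (Polynomial.X ^ k * ψ) = 0 := by
    rw [← hψ, map_mul, hχh, mul_zero]
  set ε := Polynomial.aeval h (u * Polynomial.X ^ k) with hε
  have hεε : ε * ε = ε := by
    have e1 : u * Polynomial.X ^ k * (u * Polynomial.X ^ k) =
        u * Polynomial.X ^ k - u * v * (Polynomial.X ^ k * ψ) := by
      have : u * Polynomial.X ^ k = 1 - v * ψ := by rw [← huv]; ring
      calc u * Polynomial.X ^ k * (u * Polynomial.X ^ k) =
          u * Polynomial.X ^ k * (1 - v * ψ) := by rw [← this]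
        _ = _ := by ring
    rw [hε, ← map_mul, e1, map_sub, map_mul (Polynomial.aeval h) (u * v), hprod, mul_zero,
      sub_zero]
  have hhε : h ^ k = h ^ k * ε := by
    have e1 : (Polynomial.X ^ k : Polynomial ℚ) =
        Polynomial.X ^ k * (u * Polynomial.X ^ k) + v * (Polynomial.X ^ k * ψ) := by
      calc (Polynomial.X ^ k : Polynomial ℚ) = Polynomial.X ^ k * (u * Polynomial.X ^ k + v * ψ) := by
            rw [huv, mul_one]
        _ = _ := by ring
    have e2 := congrArg (Polynomial.aeval h) e1
    rw [map_add, map_mul (Polynomial.aeval h) v, hprod, mul_zero, add_zero, map_mul, map_pow,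
      Polynomial.aeval_X] at e2
    exact e2
  obtain ⟨j, hj⟩ := Nat.exists_eq_add_of_le' hk1
  set w := h ^ j * Polynomial.aeval h u with hw
  have hεw : ε = h * w := by
    rw [hε, hw, map_mul, map_pow, Polynomial.aeval_X, ← mul_assoc, ← pow_succ', ← hj]
    have : Commute (Polynomial.aeval h u) (h ^ k) := by
      have h3 : Polynomial.aeval h u * Polynomial.aeval h (Polynomial.X ^ k : Polynomial ℚ) =
          Polynomial.aeval h (Polynomial.X ^ k : Polynomial ℚ) * Polynomial.aeval h u := by
        rw [← map_mul (Polynomial.aeval h), ← map_mul (Polynomial.aeval h), mul_comm]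
      rwa [map_pow, Polynomial.aeval_X] at h3
    exact this
  set U := e * b * g with hU
  set V := g * c * e * w with hV
  have hUV : ε = U * V := by
    rw [hεw, hh, hU, hV]
    simp only [mul_assoc]
  set ε' := V * ε * U with hε'
  have hε'ε' : ε' * ε' = ε' := by
    calc ε' * ε' = V * (ε * (U * V) * ε) * U := by rw [hε']; simp only [mul_assoc]
      _ = V * ε * U := by rw [← hUV, hεε, hεε]
  have hgε' : g * ε' = ε' := by
    rw [hε', hV]
    simp only [← mul_assoc, hg]
  have htr : tr ε' = tr ε := by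
    rw [hε', mul_assoc, hsym, mul_assoc, ← hUV, hεε]
  have hεback : ε = U * ε' * V := by
    calc ε = (U * V) * ε * (U * V) := by rw [← hUV, hεε, hεε]
      _ = U * ε' * V := by rw [hε']; simp only [mul_assoc]
  have heε : e * ε = ε := by rw [hεw, ← mul_assoc, heh]
  have h1 := K_idem tr (-1) hεε n
  rw [hE.K_eq _ (fun _ => heε)] at h1
  have h2 := K_idem tr 1 hε'ε' m
  rw [hO.K_eq _ (fun _ => hgε')] at h2
  have hε0 : ε = 0 := by
    rcases smul_eq_zero.1 h2.symm with h3 | h3
    · obtain ⟨i, -, hi⟩ := Finset.prod_eq_zero_iff.1 h3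
      rcases smul_eq_zero.1 h1.symm with h4 | h4
      · obtain ⟨l, -, hl⟩ := Finset.prod_eq_zero_iff.1 h4
        exfalso
        rw [htr] at hi
        have hi' : (0 : ℚ) ≤ (i : ℚ) := Nat.cast_nonneg i
        have hl' : (0 : ℚ) ≤ (l : ℚ) := Nat.cast_nonneg l
        linarith
      · exact h4
    · rw [hεback, h3, mul_zero, zero_mul]
  have hnil : IsNilpotent h := ⟨k, by rw [hhε, hε0, mul_zero]⟩
  have h5 := tr_eq_zero_of_isNilpotent tr (-1) hnil
    (fun k hk => hE.F_eq _ (fun _ => hehk k hk)) 1 le_rfl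
  rwa [pow_one] at h5

/-- Two decompositions into an even and an odd piece agree up to the radical of the trace form. -/
theorem tr_sub_mul (hsym : ∀ a b, tr (a * b) = tr (b * a)) {e f : R} (he : e * e = e)
    (hf : f * f = f) {n m n' m' : ℕ} (hE : Killed tr (-1) e n) (hO : Killed tr 1 (1 - e) m)
    (hE' : Killed tr (-1) f n') (hO' : Killed tr 1 (1 - f) m') (γ : R) :
    tr ((e - f) * γ) = 0 := by
  have he' : (1 - e) * (1 - e) = 1 - e := by
    rw [mul_sub, sub_mul, sub_mul, one_mul, one_mul, mul_one, he, sub_self, sub_zero]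
  have hf' : (1 - f) * (1 - f) = 1 - f := by
    rw [mul_sub, sub_mul, sub_mul, one_mul, one_mul, mul_one, hf, sub_self, sub_zero]
  have h1 : tr (e * (1 - f) * γ) = 0 := by
    have h2 := even_odd hsym he hf' hE hO' 1 γ
    rw [← h2]
    calc tr (e * (1 - f) * γ) = tr (e * (e * (1 - f) * γ)) := by
          simp only [← mul_assoc, he]
      _ = tr ((e * (1 - f) * γ) * e) := hsym _ _
      _ = tr (e * ((1 - f) * (1 - f)) * γ * e) := by rw [hf']
      _ = _ := by simp only [mul_one, mul_assoc]
  have h3 : tr ((1 - e) * f * γ) = 0 := by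
    have h2 := even_odd hsym hf he' hE' hO γ 1
    rw [← h2]
    calc tr ((1 - e) * f * γ) = tr ((1 - e) * (f * γ)) := by rw [mul_assoc]
      _ = tr (f * γ * (1 - e)) := hsym _ _
      _ = tr (f * (f * γ * (1 - e))) := by simp only [← mul_assoc, hf]
      _ = tr ((f * γ * (1 - e)) * f) := hsym _ _
      _ = tr (f * γ * ((1 - e) * (1 - e)) * f) := by rw [he']
      _ = _ := by simp only [mul_one, mul_assoc]
  have e1 : (e - f) * γ = e * (1 - f) * γ - (1 - e) * f * γ := by noncomm_ring
  rw [e1, map_sub, h1, h3, sub_zero]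

end Pool.Agent.TH829.Kim
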