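import Pool.Agent.TH829.Kim.Alg

/-!
# Algebras with a trace: the radical is nil, idempotents
-/

namespace Pool.Agent.TH829.Kim

variable {R : Type*} [Ring R] [Algebra ℚ R] {tr : R →ₗ[ℚ] ℚ}

/-- The element `a` belongs to the radical of the trace form. -/
def InRad (tr : R →ₗ[ℚ] ℚ) (a : R) : Prop := ∀ γ, tr (a * γ) = 0

lemma InRad.add {a b : R} (ha : InRad tr a) (hb : InRad tr b) : InRad tr (a + b) := fun γ => by
  rw [add_mul, map_add, ha, hb, add_zero]

lemma InRad.neg {a : R} (ha : InRad tr a) : InRad tr (-a) := fun γ => by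
  rw [neg_mul, map_neg, ha, neg_zero]

lemma InRad.sub {a b : R} (ha : InRad tr a) (hb : InRad tr b) : InRad tr (a - b) := fun γ => by
  rw [sub_mul, map_sub, ha, hb, sub_zero]

lemma InRad.mul_right {a : R} (ha : InRad tr a) (b : R) : InRad tr (a * b) := fun γ => by
  rw [mul_assoc, ha]

lemma InRad.mul_left (hsym : ∀ a b, tr (a * b) = tr (b * a)) {a : R} (ha : InRad tr a) (b : R) :
    InRad tr (b * a) := fun γ => by
  rw [mul_assoc, hsym, mul_assoc, ha]

lemma InRad.tr_pow {a : R} (ha : InRad tr a) (k : ℕ) (hk : 1 ≤ k) : tr (a ^ k) = 0 := by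
  obtain ⟨j, rfl⟩ := Nat.exists_eq_add_of_le' hk
  rw [pow_succ']
  exact ha _

/-- Elements of the radical in an even or odd piece are nilpotent. -/
lemma InRad.pow_eq_zero {a e : R} (ha : InRad tr a) (hea : e * a = a) {η : ℚ} (hη : η ≠ 0) {n : ℕ}
    (hK : Killed tr η e n) : a ^ (n + 1) = 0 := by
  have h1 := K_of_tr_zero tr η (h := a) ha.tr_pow n (fun _ => 1) (fun _ => le_rfl)
  simp only [pow_one, Finset.sum_const, Finset.card_univ, Fintype.card_fin, smul_eq_mul,
    mul_one] at h1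
  rw [hK.K_eq _ (fun _ => hea)] at h1
  have h2 : (η ^ n * n.factorial : ℚ) ≠ 0 := by positivity
  exact (smul_eq_zero.1 h1.symm).resolve_left h2

/-- The radical of the trace form is nil if the unit element is the sum of an even and an odd
idempotent. -/
theorem isNilpotent_of_inRad (hsym : ∀ a b, tr (a * b) = tr (b * a)) {f : R} (hf : f * f = f)
    {n m : ℕ} (hE : Killed tr (-1) f n) (hO : Killed tr 1 (1 - f) m) {x : R} (hx : InRad tr x) :
    IsNilpotent x := by
  set g := 1 - f with hg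
  have hgg : g * g = g := by
    rw [hg, mul_sub, sub_mul, sub_mul, one_mul, one_mul, mul_one, hf, sub_self, sub_zero]
  -- the part of the radical in the odd piece
  let B : Submodule ℚ R :=
    { carrier := {a | InRad tr a ∧ g * a = a}
      zero_mem' := ⟨fun γ => by rw [zero_mul, map_zero], mul_zero _⟩
      add_mem' := by
        rintro a b ⟨h1, h2⟩ ⟨h3, h4⟩
        exact ⟨h1.add h3, by rw [mul_add, h2, h4]⟩
      smul_mem' := by
        rintro q a ⟨h1, h2⟩
        refine ⟨fun γ => ?_, by rw [mul_smul_comm, h2]⟩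
        rw [smul_mul_assoc, map_smul, h1, smul_zero] }
  let N : Submodule ℚ R :=
    { carrier := {a | InRad tr a}
      zero_mem' := fun γ => by rw [zero_mul, map_zero]
      add_mem' := fun {a b} h1 h2 => InRad.add h1 h2
      smul_mem' := fun q a h1 γ => by rw [smul_mul_assoc, map_smul, h1, smul_zero] }
  have hB : ∀ x ∈ B, ∀ y ∈ B, x * y ∈ B := by
    rintro a ⟨h1, h2⟩ b ⟨h3, h4⟩
    exact ⟨h1.mul_right b, by rw [← mul_assoc, h2]⟩
  have hBn : B ^ (2 ^ (m + 1) - 1) = ⊥ := by
    rw [eq_bot_iff]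
    apply nagata_higman m hB bot_le
    · intro x _ y hy
      rw [Submodule.mem_bot] at hy ⊢
      rw [hy, mul_zero]
    · intro x hx y _
      rw [Submodule.mem_bot] at hx ⊢
      rw [hx, zero_mul]
    · rintro a ⟨h1, h2⟩
      rw [Submodule.mem_bot]
      exact h1.pow_eq_zero h2 one_ne_zero hO
  -- the ideal `N g R`
  let G : Submodule ℚ R := Submodule.span ℚ {g} * ⊤
  let S : Submodule ℚ R := N * G
  have hGN : G * N ≤ B := by
    rw [Submodule.mul_le]
    intro a ha b hb
    refine ⟨hb.mul_left hsym a, ?_⟩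
    obtain ⟨c, rfl⟩ : ∃ c, a = g * c := by
      have h1 : Submodule.span ℚ {g} * ⊤ ≤ LinearMap.range (LinearMap.mulLeft ℚ g) := by
        rw [Submodule.mul_le]
        intro u hu v _
        obtain ⟨q, rfl⟩ := Submodule.mem_span_singleton.1 hu
        exact ⟨q • v, by rw [LinearMap.mulLeft_apply, mul_smul_comm, smul_mul_assoc]⟩
      obtain ⟨c, hc⟩ := h1 ha
      exact ⟨c, hc.symm⟩
    rw [← mul_assoc, ← mul_assoc, hgg]
  have hSpow : ∀ k, S ^ (k + 1) ≤ N * B ^ k * G := by
    intro k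
    induction k with
    | zero => rw [zero_add, pow_one, pow_zero, mul_one]
    | succ k ih =>
      calc S ^ (k + 1 + 1) = S ^ (k + 1) * S := pow_succ _ _
        _ ≤ N * B ^ k * G * (N * G) := by gcongr
        _ = N * B ^ k * (G * N) * G := by simp only [mul_assoc]
        _ ≤ N * B ^ k * B * G := by gcongr
        _ = N * B ^ (k + 1) * G := by rw [pow_succ]; simp only [mul_assoc]
  have hSnil : S ^ (2 ^ (m + 1) - 1 + 1) = ⊥ := by
    rw [eq_bot_iff]
    refine (hSpow _).trans ?_
    rw [hBn, Submodule.mul_bot, Submodule.bot_mul]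
  -- `S` is a two-sided ideal
  have hSl : ∀ a, ∀ s ∈ S, a * s ∈ S := by
    intro a s hs
    have h1 : (⊤ : Submodule ℚ R) * S ≤ S := by
      rw [← mul_assoc]
      have h2 : (⊤ : Submodule ℚ R) * N ≤ N := Submodule.mul_le.2 fun u _ v hv =>
        InRad.mul_left hsym hv u
      exact mul_le_mul' h2 le_rfl
    exact h1 (Submodule.mul_mem_mul Submodule.mem_top hs)
  have hSr : ∀ a, ∀ s ∈ S, s * a ∈ S := by
    intro a s hs
    have h1 : S * (⊤ : Submodule ℚ R) ≤ S := by
      rw [show S * (⊤ : Submodule ℚ R) = N * (Submodule.span ℚ {g} * (⊤ * ⊤)) by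
        simp only [S, G, mul_assoc]]
      exact mul_le_mul' le_rfl (mul_le_mul' le_rfl le_top)
    exact h1 (Submodule.mul_mem_mul hs Submodule.mem_top)
  -- the decomposition
  have hxf : (x * f) ^ (n + 2) = 0 := by
    have h1 : (f * x) ^ (n + 1) = 0 := (hx.mul_left hsym f).pow_eq_zero
      (by rw [← mul_assoc, hf]) (by norm_num) hE
    have h2 : ∀ k, (x * f) ^ (k + 1) = x * (f * x) ^ k * f := by
      intro k
      induction k with
      | zero => simp
      | succ k ih =>
        rw [pow_succ, ih, pow_succ (f * x)]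
        simp only [mul_assoc]
    rw [show n + 2 = (n + 1) + 1 by ring, h2, h1, mul_zero, zero_mul]
  have hb : x * g ∈ S := by
    have : g ∈ G := by
      have := Submodule.mul_mem_mul (Submodule.mem_span_singleton_self (R := ℚ) g)
        (Submodule.mem_top (R := ℚ) (x := (1 : R)))
      rwa [mul_one] at this
    exact Submodule.mul_mem_mul (show x ∈ N from hx) this
  have hxS : ∀ k, x ^ (k + 1) - (x * f) ^ (k + 1) ∈ S := by
    have hdec : x - x * f = x * g := by rw [hg, mul_sub, mul_one]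
    intro k
    induction k with
    | zero =>
      rw [zero_add, pow_one, pow_one, hdec]
      exact hb
    | succ k ih =>
      have e : x ^ (k + 1 + 1) - (x * f) ^ (k + 1 + 1) =
          (x ^ (k + 1) - (x * f) ^ (k + 1)) * x + (x * f) ^ (k + 1) * (x - x * f) := by
        rw [pow_succ, pow_succ (x * f)]
        noncomm_ring
      rw [e, hdec]
      exact S.add_mem (hSr _ _ ih) (hSl _ _ hb)
  have h1 := hxS (n + 1)
  rw [show n + 1 + 1 = n + 2 by ring, hxf, sub_zero] at h1
  refine ⟨(n + 2) * (2 ^ (m + 1) - 1 + 1), ?_⟩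
  rw [pow_mul]
  have h2 := Submodule.pow_mem_pow S h1 (2 ^ (m + 1) - 1 + 1)
  rw [hSnil, Submodule.mem_bot] at h2
  exact h2

/-- Idempotents which are congruent modulo the radical are conjugate. -/
theorem exists_conj (hsym : ∀ a b, tr (a * b) = tr (b * a)) {e f : R} (he : e * e = e)
    (hf : f * f = f) (hnil : ∀ x, InRad tr x → IsNilpotent x) (h : InRad tr (e - f)) :
    ∃ u v : R, u * v = 1 ∧ v * u = 1 ∧ e = u * f * v := by
  set u := e * f + (1 - e) * (1 - f) with hu
  have h1 : InRad tr (u - 1) := by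
    have e1 : u - 1 = 2 * ((e - f) * f) - (e - f) := by
      have : (e - f) * f = e * f - f := by rw [sub_mul, hf]
      rw [this, hu]
      noncomm_ring
    rw [e1]
    exact ((h.mul_right f).mul_left hsym 2).sub h
  have h2 : IsUnit u := by
    have h3 := (hnil _ h1).isUnit_add_one
    rwa [sub_add_cancel] at h3
  obtain ⟨U, hU⟩ := h2
  refine ⟨u, ↑U⁻¹, by rw [← hU, Units.mul_inv], by rw [← hU, Units.inv_mul], ?_⟩
  have h4 : e * u = u * f := by
    have h5 : e * (1 - e) = 0 := by rw [mul_sub, mul_one, he, sub_self]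
    have h6 : (1 - f) * f = 0 := by rw [sub_mul, one_mul, hf, sub_self]
    rw [hu, mul_add, add_mul, ← mul_assoc, he, ← mul_assoc, h5, zero_mul, add_zero, mul_assoc, hf,
      mul_assoc, h6, mul_zero, add_zero]
  rw [← h4, ← hU, mul_assoc, Units.mul_inv, mul_one]

/-- Lifting of idempotents. -/
lemma exists_poly (k : ℕ) : ∃ φ : Polynomial ℚ,
    (Polynomial.X ^ 2 - Polynomial.X) ^ (k + 1) ∣ φ ^ 2 - φ ∧
      (Polynomial.X ^ 2 - Polynomial.X) ∣ φ - Polynomial.X := by
  induction k with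
  | zero => exact ⟨Polynomial.X, by simp, by simp⟩
  | succ k ih =>
    obtain ⟨φ, ⟨r, hr⟩, hφ⟩ := ih
    refine ⟨3 * φ ^ 2 - 2 * φ ^ 3, ?_, ?_⟩
    · have e : (3 * φ ^ 2 - 2 * φ ^ 3) ^ 2 - (3 * φ ^ 2 - 2 * φ ^ 3) =
          (φ ^ 2 - φ) ^ 2 * (4 * (φ ^ 2 - φ) - 3) := by ring
      rw [e, hr, mul_pow, ← pow_mul, mul_assoc]
      apply Dvd.dvd.mul_right
      exact pow_dvd_pow _ (by omega)
    · have e : 3 * φ ^ 2 - 2 * φ ^ 3 - Polynomial.X =
          (φ - Polynomial.X) - (φ ^ 2 - φ) * (2 * φ - 1) := by ring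
      rw [e, hr]
      apply dvd_sub hφ
      rw [mul_assoc]
      exact (dvd_pow_self _ (by omega)).mul_right _

lemma exists_lift {e : R} (he : IsNilpotent (e * e - e)) : ∃ e' c : R, e' * e' = e' ∧
    e' - e = (e * e - e) * c := by
  obtain ⟨N, hN⟩ := he
  obtain ⟨φ, ⟨r, hr⟩, ⟨s, hs⟩⟩ := exists_poly N
  refine ⟨Polynomial.aeval e φ, Polynomial.aeval e s, ?_, ?_⟩
  · have h1 := congrArg (Polynomial.aeval e) hr
    rw [map_sub, map_pow, map_mul, map_pow, map_sub, map_pow, Polynomial.aeval_X, sq e,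
      pow_eq_zero_of_le (Nat.le_succ N) hN, zero_mul, sub_eq_zero, sq] at h1
    exact h1
  · have h1 := congrArg (Polynomial.aeval e) hs
    rw [map_sub, map_mul, map_sub, map_pow, Polynomial.aeval_X, sq] at h1
    exact h1

end Pool.Agent.TH829.Kim
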