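import Pool.Agent.TH829.Kim.Pts
import Pool.Agent.TH829.Kim.Alg2
import Pool.Agent.TH133.Base
import Mathlib.GroupTheory.Perm.Fin

/-!
# Contractions of the generalized determinants
-/

open CategoryTheory AlgebraicGeometry

universe u v w

namespace Pool.Agent.TH829.Kim

open Pool.Agent.H914 Pool.Agent.H914.VarClass Pool.Agent.H914.VarClass.Obj Pool.Agent.W492.BB
  Pool.Agent.W550.Corr Pool.Agent.TH133 Pool.Agent.TH829.Prime

set_option linter.unusedSectionVars false

variable {k : Type u} [Field k] {𝒱 : VarClass k}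

section chow

variable {C : TheoryData.{u, v, 0} 𝒱 ℚ} [hC : IsChowProj C] {X Y Z W V : 𝒱.Obj}

include hC

/-- The determinant with entries depending only on the row. -/
noncomputable def gr (s : Bool) {n : ℕ} (a : Fin n → C.A (X.prod X)) (x y : Fin n → (W ⟶ X)) :
    C.A W := gd s (fun i _ => a i) x y

lemma gr_zero (s : Bool) (a : Fin 0 → C.A (X.prod X)) (x y : Fin 0 → (W ⟶ X)) :
    gr s a x y = 1 := by
  rw [gr, gd, Fintype.sum_unique]
  simp [wt]

lemma gr_one (s : Bool) (a : Fin 1 → C.A (X.prod X)) (x y : Fin 1 → (W ⟶ X)) :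
    gr s a x y = ev (a 0) (x 0) (y 0) := by
  rw [gr, gd, Fintype.sum_unique]
  simp [wt]

/-- The contraction of the first variable. -/
lemma push_gr (s : Bool) {n : ℕ} (a : Fin (n + 1) → C.A (X.prod X)) (x y : Fin n → (W ⟶ X)) {q : ℚ}
    (hq : HasDegree C (ev (a 0) (𝟙 X) (𝟙 X)) q) :
    C.push (fst W X) (gr s a (Fin.cons (snd W X) (fun i => fst W X ≫ x i))
      (Fin.cons (snd W X) (fun i => fst W X ≫ y i))) =
      q • gr s (fun i => a i.succ) x y + eta s • ∑ i, gr s
        (Function.update (fun i => a i.succ) i (C.comp (a i.succ) (a 0))) x y := by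
  set x' : Fin (n + 1) → (W.prod X ⟶ X) := Fin.cons (snd W X) (fun i => fst W X ≫ x i) with hx'
  set y' : Fin (n + 1) → (W.prod X ⟶ X) := Fin.cons (snd W X) (fun i => fst W X ≫ y i) with hy'
  have hx0 : x' 0 = snd W X := rfl
  have hy0 : y' 0 = snd W X := rfl
  have hxs : ∀ i : Fin n, x' i.succ = fst W X ≫ x i := fun i => rfl
  have hys : ∀ i : Fin n, y' i.succ = fst W X ≫ y i := fun i => rfl
  have hs : gr s a x' y' = ∑ τ : Equiv.Perm (Fin n), ∑ p : Fin (n + 1),
      wt s (Equiv.Perm.decomposeFin.symm (p, τ)) •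
        ∏ i, ev (a i) (x' i) (y' (Equiv.Perm.decomposeFin.symm (p, τ) i)) := by
    rw [gr, gd, ← Equiv.sum_comp Equiv.Perm.decomposeFin.symm, Fintype.sum_prod_type_right]
  have hwt0 : ∀ τ : Equiv.Perm (Fin n), wt s (Equiv.Perm.decomposeFin.symm (0, τ)) = wt s τ := by
    intro τ
    unfold wt
    split_ifs
    · rw [Equiv.Perm.decomposeFin.symm_sign, if_pos rfl, one_mul]
    · rfl
  have hwts : ∀ (p : Fin n) (τ : Equiv.Perm (Fin n)),
      ((wt s (Equiv.Perm.decomposeFin.symm (p.succ, τ)) : ℤ) : ℚ) = eta s * (wt s τ : ℤ) := by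
    intro p τ
    unfold wt eta
    split_ifs
    · rw [Equiv.Perm.decomposeFin.symm_sign, if_neg (Fin.succ_ne_zero p)]
      push_cast
      ring
    · norm_num
  -- the terms with `σ 0 = 0`
  have hterm0 : ∀ τ : Equiv.Perm (Fin n), C.push (fst W X)
      (wt s (Equiv.Perm.decomposeFin.symm (0, τ)) •
        ∏ i, ev (a i) (x' i) (y' (Equiv.Perm.decomposeFin.symm (0, τ) i))) =
      q • (wt s τ • ∏ i : Fin n, ev (a i.succ) (x i) (y (τ i))) := by
    intro τ
    rw [hwt0, map_zsmul, Fin.prod_univ_succ, Equiv.Perm.decomposeFin_symm_apply_zero, hx0, hy0]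
    have h1 : ∏ i : Fin n, ev (a i.succ) (x' i.succ)
        (y' (Equiv.Perm.decomposeFin.symm (0, τ) i.succ)) =
        C.pull (fst W X) (∏ i : Fin n, ev (a i.succ) (x i) (y (τ i))) := by
      rw [map_prod]
      apply Finset.prod_congr rfl
      intro i _
      rw [Equiv.Perm.decomposeFin_symm_apply_succ, Equiv.swap_self, Equiv.refl_apply, hxs, hys,
        pull_ev]
    rw [h1, C.proj_right, push_ev_diag hq, smul_mul_assoc, one_mul, smul_comm]
  -- the other terms
  have hterm1 : ∀ (τ : Equiv.Perm (Fin n)) (i : Fin n), C.push (fst W X)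
      (wt s (Equiv.Perm.decomposeFin.symm ((τ i).succ, τ)) •
        ∏ j, ev (a j) (x' j) (y' (Equiv.Perm.decomposeFin.symm ((τ i).succ, τ) j))) =
      eta s • (wt s τ • ∏ j : Fin n, ev (Function.update (fun i => a i.succ) i
        (C.comp (a i.succ) (a 0)) j) (x j) (y (τ j))) := by
    intro τ i
    rw [map_zsmul, ← Int.cast_smul_eq_zsmul ℚ, hwts, mul_smul, Int.cast_smul_eq_zsmul,
      Fin.prod_univ_succ, Equiv.Perm.decomposeFin_symm_apply_zero, hx0, hys,
      ← Finset.mul_prod_erase Finset.univ _ (Finset.mem_univ i),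
      ← Finset.mul_prod_erase Finset.univ _ (Finset.mem_univ i)]
    congr 2
    have h1 : ∏ j ∈ Finset.univ.erase i, ev (a j.succ) (x' j.succ)
        (y' (Equiv.Perm.decomposeFin.symm ((τ i).succ, τ) j.succ)) =
        C.pull (fst W X) (∏ j ∈ Finset.univ.erase i, ev (a j.succ) (x j) (y (τ j))) := by
      rw [map_prod]
      apply Finset.prod_congr rfl
      intro j hj
      have hji : j ≠ i := (Finset.mem_erase.1 hj).1
      rw [Equiv.Perm.decomposeFin_symm_apply_succ, Equiv.swap_apply_of_ne_of_ne
        (Fin.succ_ne_zero _) (by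
          intro h
          exact hji (τ.injective (Fin.succ_injective _ h))), hxs, hys, pull_ev]
    have h2 : ∏ j ∈ Finset.univ.erase i, ev (Function.update (fun i => a i.succ) i
        (C.comp (a i.succ) (a 0)) j) (x j) (y (τ j)) =
        ∏ j ∈ Finset.univ.erase i, ev (a j.succ) (x j) (y (τ j)) := by
      apply Finset.prod_congr rfl
      intro j hj
      rw [Function.update_of_ne (Finset.mem_erase.1 hj).1]
    rw [h1, h2, ← mul_assoc, C.proj_right, Equiv.Perm.decomposeFin_symm_apply_succ,
      Equiv.swap_apply_right, hxs, hy0, Function.update_self, ev_comp,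
      ch_comm C (ev (a 0) _ _)]
  rw [hs, map_sum]
  have h3 : ∀ τ : Equiv.Perm (Fin n), C.push (fst W X) (∑ p : Fin (n + 1),
      wt s (Equiv.Perm.decomposeFin.symm (p, τ)) •
        ∏ i, ev (a i) (x' i) (y' (Equiv.Perm.decomposeFin.symm (p, τ) i))) =
      q • (wt s τ • ∏ i : Fin n, ev (a i.succ) (x i) (y (τ i))) +
      ∑ i : Fin n, eta s • (wt s τ • ∏ j : Fin n, ev (Function.update (fun i => a i.succ) i
        (C.comp (a i.succ) (a 0)) j) (x j) (y (τ j))) := by
    intro τ
    rw [map_sum, Fin.sum_univ_succ, hterm0, ← Equiv.sum_comp τ]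
    congr 1
    apply Finset.sum_congr rfl
    intro i _
    exact hterm1 τ i
  rw [Finset.sum_congr rfl (fun τ _ => h3 τ), Finset.sum_add_distrib, ← Finset.smul_sum]
  congr 1
  rw [Finset.sum_comm, Finset.smul_sum]
  apply Finset.sum_congr rfl
  intro i _
  rw [← Finset.smul_sum]
  rfl

/-! ### Families of functions of `n` pairs of points -/

variable (C X) in
omit hC in
/-- Functions of `n` pairs of points. -/
abbrev Fam (n : ℕ) : Type _ := ∀ W : 𝒱.Obj, (Fin n → (W ⟶ X)) → (Fin n → (W ⟶ X)) → C.A W

variable (C X) in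
/-- The contraction of the first pair of points. -/
noncomputable def conL (n : ℕ) : Fam C X (n + 1) →ₗ[ℚ] Fam C X n where
  toFun G W x y := C.push (fst W X) (G (W.prod X) (Fin.cons (snd W X) (fun i => fst W X ≫ x i))
      (Fin.cons (snd W X) (fun i => fst W X ≫ y i)))
  map_add' G G' := by
    funext W x y
    exact map_add _ _ _
  map_smul' q G := by
    funext W x y
    exact map_smul _ _ _

variable (C X) in
/-- The contraction of the first `n` of `n + 1` pairs of points. -/
noncomputable def iterL : ∀ n : ℕ, Fam C X (n + 1) →ₗ[ℚ] Fam C X 1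
  | 0 => LinearMap.id
  | n + 1 => iterL n ∘ₗ conL C X (n + 1)

variable (C X) in
/-- The contraction of all pairs of points. -/
noncomputable def iterL0 : ∀ n : ℕ, Fam C X n →ₗ[ℚ] Fam C X 0
  | 0 => LinearMap.id
  | n + 1 => iterL0 n ∘ₗ conL C X n

lemma conL_mem {I : Family C} (hI : IsAdequate C I) {n : ℕ} {G : Fam C X (n + 1)} {e : ℤ}
    (h : ∀ W x y, G W x y ∈ I W e) : ∀ W x y, conL C X n G W x y ∈ I W (e - X.dim) := by
  intro W x y
  have h1 := hI.push_mem (fst W X) (h (W.prod X) (Fin.cons (snd W X) (fun i => fst W X ≫ x i))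
      (Fin.cons (snd W X) (fun i => fst W X ≫ y i)))
  refine hI.congr ?_ h1
  rw [dim_prod]; push_cast; ring

lemma iterL_mem {I : Family C} (hI : IsAdequate C I) (n : ℕ) {G : Fam C X (n + 1)} {e : ℤ}
    (h : ∀ W x y, G W x y ∈ I W e) : ∀ W x y, iterL C X n G W x y ∈ I W (e - n * X.dim) := by
  induction n generalizing e with
  | zero =>
    intro W x y
    refine hI.congr ?_ (h W x y)
    push_cast; ring
  | succ n ih =>
    intro W x y
    refine hI.congr ?_ (ih (conL_mem hI h) W x y)
    push_cast; ring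

lemma iterL0_mem {I : Family C} (hI : IsAdequate C I) (n : ℕ) {G : Fam C X n} {e : ℤ}
    (h : ∀ W x y, G W x y ∈ I W e) : ∀ W x y, iterL0 C X n G W x y ∈ I W (e - n * X.dim) := by
  induction n generalizing e with
  | zero =>
    intro W x y
    refine hI.congr ?_ (h W x y)
    push_cast; ring
  | succ n ih =>
    intro W x y
    refine hI.congr ?_ (ih (conL_mem hI h) W x y)
    push_cast; ring

/-! ### The ring of self-correspondences of degree zero -/

variable (C X) in
/-- The self-correspondences of degree zero. -/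
noncomputable abbrev R0 : Type _ := cor0 C X

/-- The class of a self-correspondence of degree zero. -/
noncomputable def toA : R0 C X →ₗ[ℚ] C.A (X.prod X) := (cor0 C X).val.toLinearMap

lemma toA_mul (a b : R0 C X) : toA (a * b) = C.comp (toA b) (toA a) := rfl

lemma toA_one : toA (1 : R0 C X) = dg C X := rfl

lemma toA_mem (a : R0 C X) : toA a ∈ C.gr (X.prod X) X.dim := a.2

lemma toA_inj {a b : R0 C X} (h : toA a = toA b) : a = b := Subtype.ext h

/-- The self-correspondence of degree zero with a given class. -/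
noncomputable def ofA (p : C.A (X.prod X)) (hp : p ∈ C.gr (X.prod X) X.dim) : R0 C X := ⟨p, hp⟩

lemma toA_ofA (p : C.A (X.prod X)) (hp : p ∈ C.gr (X.prod X) X.dim) : toA (ofA p hp) = p := rfl

lemma exists_tr (a : R0 C X) : ∃ q : ℚ, HasDegree C (ev (toA a) (𝟙 X) (𝟙 X)) q :=
  exists_hasDegree (ev_mem (toA_mem a) _ _)

lemma HasDegree.smul' {x : C.A X} {q : ℚ} (r : ℚ) (hx : HasDegree C x q) :
    HasDegree C (r • x) (r * q) := HasDegree.smul r hx

/-- The trace of a self-correspondence: the degree of its restriction to the diagonal. -/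
noncomputable def trL (hne : ∀ X : 𝒱.Obj, (1 : C.A X) ≠ 0) (X : 𝒱.Obj) : R0 C X →ₗ[ℚ] ℚ where
  toFun a := (exists_tr a).choose
  map_add' a b := by
    apply hasDegree_uniq (hne X) (exists_tr (a + b)).choose_spec
    have h := HasDegree.add (exists_tr a).choose_spec (exists_tr b).choose_spec
    rw [← ev_add, ← map_add toA] at h
    exact h
  map_smul' r a := by
    apply hasDegree_uniq (hne X) (exists_tr (r • a)).choose_spec
    have h := HasDegree.smul r (exists_tr a).choose_spec
    rw [← ev_smul, ← map_smul toA] at h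
    exact h

variable {hne : ∀ X : 𝒱.Obj, (1 : C.A X) ≠ 0}

lemma trL_spec (a : R0 C X) : HasDegree C (ev (toA a) (𝟙 X) (𝟙 X)) (trL hne X a) :=
  (exists_tr a).choose_spec

lemma tp_hasDegree {z : C.A (X.prod X)} {q : ℚ} (h : HasDegree C z q) : HasDegree C (tp C z) q := by
  have h1 := hasDegree_push (sw X X) h
  rwa [← pull_iso C (sw X X) (sw X X) sw_sw sw_sw] at h1

/-- The trace of a composition as an intersection number. -/
lemma trL_mul (a b : R0 C X) : HasDegree C (toA b * tp C (toA a)) (trL hne X (a * b)) := by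
  obtain ⟨q, hq⟩ := exists_hasDegree (C := C) (X := X.prod X) (x := toA b * tp C (toA a)) (by
    have h := C.mul_mem (toA_mem b) (tp_mem C (toA_mem a))
    rw [dim_prod]
    exact_mod_cast h)
  have h1 := hasDegree_push (fst X X) hq
  have h2 := trL_spec (hne := hne) (a * b)
  rw [toA_mul, ev_comp] at h2
  have e1 : ev (toA b) (fst X X ≫ 𝟙 X) (snd X X) = toA b := by
    rw [Category.comp_id, ev_univ]
  have e2 : ev (toA a) (snd X X) (fst X X ≫ 𝟙 X) = tp C (toA a) := by
    rw [Category.comp_id]
    rfl
  rw [e1, e2] at h2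
  rwa [hasDegree_uniq (hne X) h1 h2] at hq

lemma trL_comm (a b : R0 C X) : trL hne X (a * b) = trL hne X (b * a) := by
  apply hasDegree_uniq (hne X) (trL_mul (hne := hne) a b)
  have h := tp_hasDegree (trL_mul (hne := hne) b a)
  have e : tp C (toA a * tp C (toA b)) = toA b * tp C (toA a) := by
    rw [tp, map_mul, ch_comm C]
    congr 1
    change tp C (tp C (toA b)) = _
    rw [tp_tp]
  rwa [e] at h

/-! ### The contractions -/

/-- The family of the determinants. -/
noncomputable def grF (s : Bool) {n : ℕ} (a : Fin n → R0 C X) : Fam C X n :=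
  fun W x y => gr (W := W) s (fun i => toA (a i)) x y

/-- The family of the values of a correspondence. -/
noncomputable def evF (a : R0 C X) : Fam C X 1 := fun _ x y => ev (toA a) (x 0) (y 0)

lemma conL_grF (s : Bool) {n : ℕ} (a : Fin (n + 1) → R0 C X) :
    conL C X n (grF s a) = trL hne X (a 0) • grF s (fun i => a i.succ) +
      eta s • ∑ i, grF s (Function.update (fun i => a i.succ) i (a 0 * a i.succ)) := by
  funext W x y
  have h := push_gr (W := W) s (fun i => toA (a i)) x y (trL_spec (hne := hne) (a 0))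
  have h1 : ∀ i : Fin n, (fun j => toA (Function.update (fun i => a i.succ) i
      (a 0 * a i.succ) j)) = Function.update (fun i => toA (a i.succ)) i
        (C.comp (toA (a i.succ)) (toA (a 0))) := by
    intro i
    funext j
    by_cases hj : j = i
    · subst hj
      rw [Function.update_self, Function.update_self, toA_mul]
    · rw [Function.update_of_ne hj, Function.update_of_ne hj]
  rw [Pi.add_apply, Pi.add_apply, Pi.add_apply, Pi.smul_apply, Pi.smul_apply, Pi.smul_apply,
    Pi.smul_apply, Pi.smul_apply, Pi.smul_apply, Finset.sum_apply, Finset.sum_apply,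
    Finset.sum_apply]
  have h2 : ∀ i : Fin n, grF s (Function.update (fun i => a i.succ) i (a 0 * a i.succ)) W x y =
      gr s (Function.update (fun i => toA (a i.succ)) i
        (C.comp (toA (a i.succ)) (toA (a 0)))) x y := by
    intro i
    rw [← h1]
    rfl
  rw [Finset.sum_congr rfl (fun i _ => h2 i)]
  exact h

lemma evF_add (a b : R0 C X) : evF (a + b) = evF a + evF b := by
  funext W x y
  exact map_add _ _ _

/-- `evF` as a linear map. -/
noncomputable def evL : R0 C X →ₗ[ℚ] Fam C X 1 where
  toFun := evF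
  map_add' := evF_add
  map_smul' q a := by
    funext W x y
    exact map_smul _ _ _

/-- The contraction of all but one pair of points. -/
lemma iterL_grF (s : Bool) (n : ℕ) (a : Fin (n + 1) → R0 C X) :
    iterL C X n (grF s a) = evL (K (trL hne X) (eta s) n a) := by
  induction n with
  | zero =>
    funext W x y
    exact gr_one s _ x y
  | succ n ih =>
    rw [iterL, LinearMap.comp_apply, conL_grF (hne := hne), map_add, map_smul, map_smul, map_sum,
      K_succ, map_add, map_smul, map_smul, map_sum, ih]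
    congr 2
    exact Finset.sum_congr rfl (fun i _ => ih _)

/-- The contraction of all pairs of points. -/
lemma iterL0_grF (s : Bool) (n : ℕ) (a : Fin n → R0 C X) :
    iterL0 C X n (grF s a) = F (trL hne X) (eta s) n a • (fun _ _ _ => 1 : Fam C X 0) := by
  induction n with
  | zero =>
    rw [F, one_smul]
    funext W x y
    exact gr_zero s _ x y
  | succ n ih =>
    rw [iterL0, LinearMap.comp_apply, conL_grF (hne := hne), map_add, map_smul, map_smul, map_sum,
      F_succ, ih, Finset.sum_congr rfl (fun i _ => ih _), add_smul, mul_smul, mul_smul,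
      Finset.sum_smul]

end chow

end Pool.Agent.TH829.Kim
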