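import Pool.Agent.TH829.Prime.Defs
import Mathlib.GroupTheory.Perm.Sign

/-!
# Finite-dimensional motives modulo an adequate equivalence relation: definitions
-/

open CategoryTheory AlgebraicGeometry

universe u v w

namespace Pool.Agent.TH829.Kim

open Pool.Agent.H914 Pool.Agent.H914.VarClass Pool.Agent.H914.VarClass.Obj Pool.Agent.W492.BB
  Pool.Agent.W550.Corr Pool.Agent.TH133 Pool.Agent.TH829.Prime

variable {k : Type u} [Field k] {𝒱 : VarClass k}

/-- The value `p(x, y)` of the self-correspondence `p` of `X` at the points `x`, `y` of `X` with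
values in `W`, that is, the pull-back of `p` under `(x, y) : W ⟶ X × X`. -/
noncomputable def value (C : TheoryData.{u, v, 0} 𝒱 ℚ) {X W : 𝒱.Obj} (p : C.A (X.prod X))
    (x y : W ⟶ X) : C.A W := C.up (Obj.lift x y) p

/-- The class `∑_σ sign(σ) p(x_1, y_{σ 1}) ⋯ p(x_n, y_{σ n})` on `W`. For `W = X^n × X^n` and the
`2n` projections this is `n!` times the correspondence defining the exterior power `Λ^n (X, p)` of
the motive `(X, p)`. -/
noncomputable def altPower (C : TheoryData.{u, v, 0} 𝒱 ℚ) {X W : 𝒱.Obj} {n : ℕ}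
    (p : C.A (X.prod X)) (x y : Fin n → (W ⟶ X)) : C.A W :=
  ∑ σ : Equiv.Perm (Fin n), (Equiv.Perm.sign σ : ℤ) •
    (List.ofFn fun i => value C p (x i) (y (σ i))).prod

/-- The class `∑_σ p(x_1, y_{σ 1}) ⋯ p(x_n, y_{σ n})` on `W`. For `W = X^n × X^n` and the `2n`
projections this is `n!` times the correspondence defining the symmetric power `Sym^n (X, p)` of the
motive `(X, p)`. -/
noncomputable def symPower (C : TheoryData.{u, v, 0} 𝒱 ℚ) {X W : 𝒱.Obj} {n : ℕ}
    (p : C.A (X.prod X)) (x y : Fin n → (W ⟶ X)) : C.A W :=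
  ∑ σ : Equiv.Perm (Fin n), (List.ofFn fun i => value C p (x i) (y (σ i))).prod

/-- The motive `h(X)` is finite-dimensional in the sense of Kimura modulo the adequate relation `I`:
there is a self-correspondence `e` of degree zero, idempotent modulo `I`, such that, modulo `I`, for
some `n ≥ 1` the exterior power `Λ^n (X, e)` is zero, and for some `n ≥ 1` the symmetric power
`Sym^n (X, 1 - e)` is zero. -/
def IsKimuraFinite (C : TheoryData.{u, v, 0} 𝒱 ℚ) (I : Family C) (X : 𝒱.Obj) : Prop :=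
  ∃ e : C.A (X.prod X), C.Deg X.dim e ∧ C.comp e e - e ∈ I (X.prod X) X.dim ∧
    (∃ n : ℕ, 1 ≤ n ∧ ∀ (W : 𝒱.Obj) (x y : Fin n → (W ⟶ X)),
      altPower C e x y ∈ I W (n * X.dim)) ∧
    (∃ n : ℕ, 1 ≤ n ∧ ∀ (W : 𝒱.Obj) (x y : Fin n → (W ⟶ X)),
      symPower C (dg C X - e) x y ∈ I W (n * X.dim))

/-- Rational equivalence. -/
def ratFam (C : TheoryData.{u, v, 0} 𝒱 ℚ) : Family C := fun _ _ => ⊥

end Pool.Agent.TH829.Kim
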