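import Pool.Agent.TH829.Kim.Defs

/-!
# Surfaces with `p_g = 0` modulo prime adequate relations: definitions
-/

open CategoryTheory AlgebraicGeometry

universe u v w

namespace Pool.Agent.TH829.Kim

open Pool.Agent.H914 Pool.Agent.H914.VarClass Pool.Agent.H914.VarClass.Obj Pool.Agent.W492.BB
  Pool.Agent.W550.Corr Pool.Agent.TH133 Pool.Agent.TH829.Prime

variable {k : Type u} [Field k] {𝒱 : VarClass k}

/-- The zero-cycle `z` on `X` has degree zero and lies in the kernel of the Albanese map (with
rational coefficients): it is killed by all correspondences `Γ ∈ CH^1(X × B)` to curves `B`. -/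
def AlbKer (C : TheoryData.{u, v, 0} 𝒱 ℚ) {X : 𝒱.Obj} (z : C.A X) : Prop :=
  C.Deg X.dim z ∧ HasDegree C z 0 ∧ ∀ (B : 𝒱.Obj) (Γ : C.A (X.prod B)), B.dim = 1 → C.Deg 1 Γ →
    C.act Γ z = 0

/-- The kernel of the Albanese map of `X` is zero (rational coefficients). -/
def AlbInjective (C : TheoryData.{u, v, 0} 𝒱 ℚ) (X : 𝒱.Obj) : Prop :=
  ∀ z : C.A X, AlbKer C z → z = 0

/-- The class `q ∈ CH^2(S × S)` has the properties of the projector onto the transcendental part
`t_2(S)` of the motive of a surface `S` with `p_g = 0`: it is an idempotent correspondence,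
numerically trivial, and acts as the identity on the kernel of the Albanese map. -/
structure IsTransProj (C : TheoryData.{u, v, 0} 𝒱 ℚ) (S : 𝒱.Obj) (q : C.A (S.prod S)) :
    Prop where
  deg : C.Deg 2 q
  idem : C.comp q q = q
  num : NumTrivial C 2 q
  albanese : ∀ z : C.A S, AlbKer C z → C.act q z = z

/-- Modulo the adequate relation `P` some exterior power or some symmetric power (with `n ≥ 1`
factors) of the motive `(S, q)` vanishes. -/
def PowerVanishes (C : TheoryData.{u, v, 0} 𝒱 ℚ) {S : 𝒱.Obj} (P : Family C)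
    (q : C.A (S.prod S)) : Prop :=
  ∃ n : ℕ, 1 ≤ n ∧
    ((∀ (W : 𝒱.Obj) (x y : Fin n → (W ⟶ S)), altPower C q x y ∈ P W (n * S.dim)) ∨
      (∀ (W : 𝒱.Obj) (x y : Fin n → (W ⟶ S)), symPower C q x y ∈ P W (n * S.dim)))

end Pool.Agent.TH829.Kim
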