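import Pool.Agent.TH829.Kim.Contr

/-!
# Self-correspondences modulo an adequate relation
-/

open CategoryTheory AlgebraicGeometry

universe u v w

namespace Pool.Agent.TH829.Kim

open Pool.Agent.H914 Pool.Agent.H914.VarClass Pool.Agent.H914.VarClass.Obj Pool.Agent.W492.BB
  Pool.Agent.W550.Corr Pool.Agent.TH133 Pool.Agent.TH829.Prime

set_option linter.unusedSectionVars false

variable {k : Type u} [Field k] {𝒱 : VarClass k}

section chow

variable {C : TheoryData.{u, v, 0} 𝒱 ℚ} [hC : IsChowProj C] {X Y Z W V : 𝒱.Obj}

include hC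

lemma adq_comp_left {I : Family C} (hI : IsAdequate C I) {a b : C.A (X.prod X)}
    (ha : a ∈ I (X.prod X) X.dim) (hb : b ∈ C.gr (X.prod X) X.dim) :
    C.comp a b ∈ I (X.prod X) X.dim := by
  have h := hI.push_mem (t13 X X X) (hI.mul_mem' (C.pull_mem (t23 X X X) hb)
    (hI.pull_mem (fst (X.prod X) X) ha))
  refine hI.congr ?_ h
  simp only [dim_prod]
  push_cast
  ring

lemma adq_comp_right {I : Family C} (hI : IsAdequate C I) {a b : C.A (X.prod X)}
    (ha : a ∈ C.gr (X.prod X) X.dim) (hb : b ∈ I (X.prod X) X.dim) :
    C.comp a b ∈ I (X.prod X) X.dim := by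
  have h := hI.push_mem (t13 X X X) (hI.mul_mem (hI.pull_mem (t23 X X X) hb)
    (C.pull_mem (fst (X.prod X) X) ha))
  refine hI.congr ?_ h
  simp only [dim_prod]
  push_cast
  ring

/-- The ideal of the self-correspondences equivalent to zero. -/
noncomputable def idl (P : Family C) (hP : IsAdequate C P) (X : 𝒱.Obj) : Ideal (R0 C X) where
  carrier := {a | toA a ∈ P (X.prod X) X.dim}
  zero_mem' := by
    show toA 0 ∈ P (X.prod X) X.dim
    rw [map_zero]
    exact Submodule.zero_mem _
  add_mem' {a b} ha hb := by
    show toA (a + b) ∈ P (X.prod X) X.dim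
    rw [map_add]
    exact Submodule.add_mem _ ha hb
  smul_mem' r a ha := adq_comp_left hP ha (toA_mem r)

instance (P : Family C) (hP : IsAdequate C P) (X : 𝒱.Obj) : (idl P hP X).IsTwoSided where
  mul_mem_of_left b ha := adq_comp_right hP (toA_mem b) ha

lemma mem_idl {P : Family C} {hP : IsAdequate C P} {a : R0 C X} :
    a ∈ idl P hP X ↔ toA a ∈ P (X.prod X) X.dim := Iff.rfl

/-- The ring of the self-correspondences of degree zero modulo the adequate relation. -/
noncomputable abbrev RP (P : Family C) (hP : IsAdequate C P) (X : 𝒱.Obj) : Type _ :=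
  R0 C X ⧸ idl P hP X

/-- The quotient map. -/
noncomputable abbrev mk (P : Family C) (hP : IsAdequate C P) (X : 𝒱.Obj) :
    R0 C X →+* RP P hP X := Ideal.Quotient.mk (idl P hP X)

lemma mk_eq_zero {P : Family C} {hP : IsAdequate C P} {a : R0 C X} :
    mk P hP X a = 0 ↔ toA a ∈ P (X.prod X) X.dim := Ideal.Quotient.eq_zero_iff_mem

lemma mk_smul {P : Family C} {hP : IsAdequate C P} (q : ℚ) (a : R0 C X) :
    mk P hP X (q • a) = q • mk P hP X a := rfl

variable {hne : ∀ X : 𝒱.Obj, (1 : C.A X) ≠ 0}

lemma one_notMem_iff {P : Family C} (hP : IsAdequate C P) (h : ∃ X : 𝒱.Obj, (1 : C.A X) ∉ P X 0)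
    (Z : 𝒱.Obj) : (1 : C.A Z) ∉ P Z 0 := by
  intro h1
  obtain ⟨X, hX⟩ := h
  exact hX (hP.one_mem_of h1 X)

/-- Self-correspondences numerically equivalent to zero have trace zero. -/
lemma trL_of_num {a : R0 C X} (h : toA a ∈ numFam C (X.prod X) X.dim) : trL hne X a = 0 := by
  have h1 := trL_mul (hne := hne) (1 : R0 C X) a
  rw [one_mul] at h1
  have h2 : C.Deg (((X.prod X).dim : ℤ) - X.dim) (tp C (toA (1 : R0 C X))) := by
    have h3 := tp_mem C (toA_mem (1 : R0 C X))
    have e : ((X.prod X).dim : ℤ) - X.dim = X.dim := by rw [dim_prod]; push_cast; ring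
    rw [e]
    exact h3
  exact hasDegree_uniq (hne X) h1 (h.2 _ h2)

variable (hne) in
/-- The trace on the quotient ring, as a homomorphism of groups. -/
noncomputable def trP0 (P : Family C) (hP : IsAdequate C P) (hle : P ≤ numFam C) (X : 𝒱.Obj) :
    RP P hP X →+ ℚ :=
  QuotientAddGroup.lift (idl P hP X).toAddSubgroup (trL hne X).toAddMonoidHom (by
    intro a ha
    rw [AddMonoidHom.mem_ker]
    exact trL_of_num (hne := hne) (hle _ _ ha))

variable (hne) in
/-- The trace on the quotient ring. -/
noncomputable def trP (P : Family C) (hP : IsAdequate C P) (hle : P ≤ numFam C) (X : 𝒱.Obj) :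
    RP P hP X →ₗ[ℚ] ℚ := (trP0 hne P hP hle X).toRatLinearMap

lemma trP_mk {P : Family C} {hP : IsAdequate C P} {hle : P ≤ numFam C} (a : R0 C X) :
    trP hne P hP hle X (mk P hP X a) = trL hne X a := rfl

lemma trP_comm {P : Family C} {hP : IsAdequate C P} {hle : P ≤ numFam C} (a b : RP P hP X) :
    trP hne P hP hle X (a * b) = trP hne P hP hle X (b * a) := by
  obtain ⟨a, rfl⟩ := Ideal.Quotient.mk_surjective a
  obtain ⟨b, rfl⟩ := Ideal.Quotient.mk_surjective b
  rw [← map_mul, ← map_mul]
  change trP hne P hP hle X (mk P hP X (a * b)) = trP hne P hP hle X (mk P hP X (b * a))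
  rw [trP_mk, trP_mk, trL_comm]

lemma K_mk {P : Family C} {hP : IsAdequate C P} {hle : P ≤ numFam C} (η : ℚ) (n : ℕ)
    (a : Fin (n + 1) → R0 C X) : K (trP hne P hP hle X) η n (fun i => mk P hP X (a i)) =
      mk P hP X (K (trL hne X) η n a) := by
  induction n with
  | zero => rfl
  | succ n ih =>
    rw [K_succ, K_succ, map_add, mk_smul, mk_smul, map_sum, ih, trP_mk]
    congr 2
    apply Finset.sum_congr rfl
    intro i _
    rw [← ih]
    congr 1
    funext j
    by_cases hj : j = i
    · subst hj
      rw [Function.update_self, Function.update_self, map_mul]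
    · rw [Function.update_of_ne hj, Function.update_of_ne hj]

lemma F_mk {P : Family C} {hP : IsAdequate C P} {hle : P ≤ numFam C} (η : ℚ) (n : ℕ)
    (a : Fin n → R0 C X) : F (trP hne P hP hle X) η n (fun i => mk P hP X (a i)) =
      F (trL hne X) η n a := by
  induction n with
  | zero => rfl
  | succ n ih =>
    rw [F_succ, F_succ, ih, trP_mk]
    congr 2
    apply Finset.sum_congr rfl
    intro i _
    rw [← ih]
    congr 1
    funext j
    by_cases hj : j = i
    · subst hj
      rw [Function.update_self, Function.update_self, map_mul]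
    · rw [Function.update_of_ne hj, Function.update_of_ne hj]

/-- The (anti)symmetrizations of the self-correspondence `f` with `n` factors belong to `P`. -/
def Dies (P : Family C) (s : Bool) (f : R0 C X) (n : ℕ) : Prop :=
  Van (ι := Fin n) P s (fun _ _ => toA f) (n * X.dim)

/-- The vanishing of the (anti)symmetrizations of `f` implies the algebraic condition. -/
lemma Dies.killed {P : Family C} {hP : IsAdequate C P} {hle : P ≤ numFam C}
    (h1 : ∀ Z : 𝒱.Obj, (1 : C.A Z) ∉ P Z 0) {s : Bool} {f : R0 C X} {n : ℕ}
    (h : Dies P s f (n + 1)) : Killed (trP hne P hP hle X) (eta s) (mk P hP X f) n := by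
  have key : ∀ a : Fin (n + 1) → RP P hP X, (∀ i, mk P hP X f * a i = a i) →
      ∃ b : Fin (n + 1) → R0 C X, a = (fun i => mk P hP X (b i)) ∧
        ∀ (W : 𝒱.Obj) (x y : Fin (n + 1) → (W ⟶ X)),
          grF s b W x y ∈ P W (((n + 1 : ℕ) : ℤ) * X.dim) := by
    intro a ha
    choose b hb using fun i => Ideal.Quotient.mk_surjective (a i)
    refine ⟨fun i => f * b i, ?_, ?_⟩
    · funext i
      rw [map_mul, ← ha i, ← hb i]
    · have h2 := Van.rows hP h (a := fun i => toA (b i)) (fun i => toA_mem _)
      exact h2
  constructor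
  · intro a ha
    obtain ⟨b, rfl, hb⟩ := key a ha
    rw [K_mk, mk_eq_zero]
    have h2 := iterL_mem hP n hb
    rw [iterL_grF (hne := hne)] at h2
    have h3 := h2 (X.prod X) (fun _ => fst X X) (fun _ => snd X X)
    have h4 : evL (K (trL hne X) (eta s) n b) (X.prod X) (fun _ => fst X X) (fun _ => snd X X) =
        toA (K (trL hne X) (eta s) n b) := ev_univ _
    rw [h4] at h3
    refine hP.congr ?_ h3
    push_cast; ring
  · intro a ha
    obtain ⟨b, rfl, hb⟩ := key a ha
    rw [F_mk]
    by_contra hF
    have h2 := iterL0_mem hP (n + 1) hb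
    rw [iterL0_grF (hne := hne)] at h2
    have h3 := h2 X Fin.elim0 Fin.elim0
    have h4 := Submodule.smul_mem _ (F (trL hne X) (eta s) (n + 1) b)⁻¹ h3
    apply h1 X
    have e : (F (trL hne X) (eta s) (n + 1) b)⁻¹ • (F (trL hne X) (eta s) (n + 1) b •
        (fun _ _ _ => 1 : Fam C X 0)) X Fin.elim0 Fin.elim0 = (1 : C.A X) := by
      rw [Pi.smul_apply, Pi.smul_apply, Pi.smul_apply, smul_smul, inv_mul_cancel₀ hF, one_smul]
    rw [e] at h4
    refine hP.congr ?_ h4
    push_cast; ring

/-- Conjugate self-correspondences die together. -/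
lemma Dies.conj {P : Family C} {hP : IsAdequate C P} {s : Bool} {f e u v : R0 C X} {n : ℕ}
    (h : Dies P s f n) (he : mk P hP X e = mk P hP X (u * f * v)) : Dies P s e n := by
  have h1 : Van (ι := Fin n) P s (fun _ _ => toA (f * v)) (n * X.dim) :=
    Van.rows hP h (a := fun _ => toA v) (fun _ => toA_mem _)
  have h2 : Van (ι := Fin n) P s (fun _ _ => toA (u * f * v)) (n * X.dim) := by
    have h3 := Van.cols hP h1 (toA_mem u)
    rw [mul_assoc]
    exact h3
  intro W x y
  have h4 : toA e - toA (u * f * v) ∈ P (X.prod X) X.dim := by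
    rw [← map_sub, ← mk_eq_zero (hP := hP), map_sub, he, sub_self]
  -- replace the rows one after the other
  have key : ∀ T : Finset (Fin n), gd s (fun i (_ : Fin n) => if i ∈ T then toA e else
      toA (u * f * v)) x y ∈ P W (n * X.dim) := by
    intro T
    induction T using Finset.induction_on with
    | empty => simpa using h2 W x y
    | insert i T hi ih =>
      have h5 : gd s (fun j (_ : Fin n) => if j ∈ insert i T then toA e else
          toA (u * f * v)) x y - gd s (fun j (_ : Fin n) => if j ∈ T then toA e else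
          toA (u * f * v)) x y ∈ P W (n * X.dim) := by
        rw [gd, gd, ← Finset.sum_sub_distrib]
        apply Submodule.sum_mem
        intro σ _
        rw [← smul_sub, ← Finset.mul_prod_erase Finset.univ _ (Finset.mem_univ i),
          ← Finset.mul_prod_erase Finset.univ _ (Finset.mem_univ i), if_pos
          (Finset.mem_insert_self i T), if_neg hi]
        have h6 : ∏ j ∈ Finset.univ.erase i, ev (if j ∈ insert i T then toA e else
            toA (u * f * v)) (x j) (y (σ j)) = ∏ j ∈ Finset.univ.erase i,
              ev (if j ∈ T then toA e else toA (u * f * v)) (x j) (y (σ j)) := by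
          apply Finset.prod_congr rfl
          intro j hj
          have hji : j ≠ i := (Finset.mem_erase.1 hj).1
          by_cases hjT : j ∈ T
          · rw [if_pos (Finset.mem_insert_of_mem hjT), if_pos hjT]
          · rw [if_neg (by simp [hji, hjT]), if_neg hjT]
        rw [h6, ← sub_mul]
        have h7 : ev (toA e) (x i) (y (σ i)) - ev (toA (u * f * v)) (x i) (y (σ i)) ∈
            P W X.dim := by
          rw [ev, ev, ← map_sub]
          exact hP.pull_mem _ h4
        have h8 : ∀ S : Finset (Fin n), ∏ j ∈ S, ev (if j ∈ T then toA e else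
            toA (u * f * v)) (x j) (y (σ j)) ∈ C.gr W ((S.card : ℤ) * X.dim) := by
          intro S
          induction S using Finset.induction_on with
          | empty =>
            rw [Finset.prod_empty, Finset.card_empty, Nat.cast_zero, zero_mul]
            exact C.one_mem W
          | insert j S hj ihS =>
            rw [Finset.prod_insert hj, Finset.card_insert_of_notMem hj]
            have e1 : ((S.card + 1 : ℕ) : ℤ) * (X.dim : ℤ) = X.dim + (S.card : ℤ) * X.dim := by
              push_cast; ring
            rw [e1]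
            apply C.mul_mem _ ihS
            split_ifs
            · exact ev_mem (toA_mem _) _ _
            · exact ev_mem (toA_mem _) _ _
        have h9 := hP.mul_mem h7 (h8 (Finset.univ.erase i))
        have h10 : (X.dim : ℤ) + ((Finset.univ.erase i).card : ℤ) * X.dim = n * X.dim := by
          have hn : 1 ≤ n := by have := i.2; omega
          rw [Finset.card_erase_of_mem (Finset.mem_univ i), Finset.card_univ, Fintype.card_fin]
          push_cast [hn]
          ring
        rw [h10] at h9
        rw [← Int.cast_smul_eq_zsmul ℚ]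
        exact Submodule.smul_mem _ _ h9
      have h11 := Submodule.add_mem _ h5 ih
      rwa [sub_add_cancel] at h11
  have h12 := key Finset.univ
  simpa using h12

end chow

end Pool.Agent.TH829.Kim
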