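import Pool.Agent.TH829.Kim.Defs
import Pool.Agent.TH829.Kim.Quot

/-!
# Finite-dimensionality can be checked modulo all prime adequate relations
-/

open CategoryTheory AlgebraicGeometry

universe u v w

namespace Pool.Agent.TH829.Kim

open Pool.Agent.H914 Pool.Agent.H914.VarClass Pool.Agent.H914.VarClass.Obj Pool.Agent.W492.BB
  Pool.Agent.W550.Corr Pool.Agent.TH133 Pool.Agent.TH829.Prime

set_option linter.unusedSectionVars false

variable {k : Type u} [Field k] {𝒱 : VarClass k}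

section chow

variable {C : TheoryData.{u, v, 0} 𝒱 ℚ} [hC : IsChowProj C] {X Y Z W V : 𝒱.Obj}

include hC

/-! ### Nilpotence -/

/-- The system of the powers of a self-correspondence. -/
def nilSys (δ : R0 C X) (Z : 𝒱.Obj) (j : ℤ) (z : C.A Z) : Prop :=
  ∃ k : ℕ, ∃ e : Z = X.prod X, j = X.dim ∧ e ▸ z = toA (δ ^ (k + 1))

lemma nilSys_pow (δ : R0 C X) (k : ℕ) : nilSys δ (X.prod X) X.dim (toA (δ ^ (k + 1))) :=
  ⟨k, rfl, rfl, rfl⟩

lemma comp_mem_of_ext {I : Family C} (hI : IsAdequate C I) {a b : C.A (X.prod X)}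
    (h : C.ext a b ∈ I ((X.prod X).prod (X.prod X)) ((X.dim : ℤ) + X.dim)) :
    C.comp a b ∈ I (X.prod X) X.dim := by
  have h1 := hI.push_mem (t13 X X X) (hI.pull_mem (Obj.lift (fst (X.prod X) X) (t23 X X X)) h)
  rw [TheoryData.up, TheoryData.ext, map_mul, ← C.pull_comp, ← C.pull_comp, lift_fst, lift_snd,
    ch_comm C] at h1
  refine hI.congr ?_ h1
  simp only [dim_prod]
  push_cast
  ring

lemma isMult_nilSys (δ : R0 C X) : IsMult (C := C) (nilSys δ) where
  deg := by
    rintro Z j z ⟨k, rfl, rfl, h⟩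
    have h' : z = toA (δ ^ (k + 1)) := h
    rw [h']
    exact toA_mem _
  nonempty := ⟨_, _, _, nilSys_pow δ 0⟩
  mul := by
    rintro Z W i j s t ⟨k, rfl, rfl, h⟩ ⟨l, rfl, rfl, h2⟩ I hI hst
    have h' : s = toA (δ ^ (k + 1)) := h
    have h2' : t = toA (δ ^ (l + 1)) := h2
    subst h' h2'
    refine ⟨_, _, _, nilSys_pow δ (l + 1 + k), ?_⟩
    have e : δ ^ (l + 1 + k + 1) = δ ^ (l + 1) * δ ^ (k + 1) := by
      rw [← pow_add, add_assoc (l + 1)]
    rw [e, toA_mul]
    exact comp_mem_of_ext hI hst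

/-- A self-correspondence which is nilpotent modulo all prime adequate relations is nilpotent. -/
theorem isNilpotent_of_prime (δ : R0 C X) (h : ∀ (P : Family C) (hP : IsPrime C P),
    IsNilpotent (mk P hP.toIsAdequate X δ)) : IsNilpotent δ := by
  by_contra hcon
  have hav : Avoids (nilSys δ) (fun _ _ => ⊥ : Family C) := by
    rintro Z j z ⟨k, rfl, rfl, h1⟩ h2
    have h' : z = toA (δ ^ (k + 1)) := h1
    rw [h', Submodule.mem_bot] at h2
    exact hcon ⟨k + 1, toA_inj (by rw [h2, map_zero])⟩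
  obtain ⟨P, hP, -, hPa⟩ := exists_prime_avoids (isMult_nilSys δ) isAdequate_bot hav
  obtain ⟨n, hn⟩ := h P hP
  have h3 : mk P hP.toIsAdequate X (δ ^ (n + 1)) = 0 := by
    rw [map_pow, pow_succ, hn, zero_mul]
  exact hPa _ _ _ (nilSys_pow δ n) (mk_eq_zero.1 h3)

/-! ### The development of Laplace -/

omit hC in
lemma wt_sumCongr (s : Bool) {α β : Type} [Fintype α] [DecidableEq α] [Fintype β] [DecidableEq β]
    (τ : Equiv.Perm α) (ρ : Equiv.Perm β) :
    wt s (Equiv.sumCongr τ ρ : Equiv.Perm (α ⊕ β)) = wt s τ * wt s ρ := by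
  unfold wt
  split_ifs
  · have h := Equiv.Perm.sign_sumCongr τ ρ
    have h' : Equiv.Perm.sign (Equiv.sumCongr τ ρ : Equiv.Perm (α ⊕ β)) =
        Equiv.Perm.sign τ * Equiv.Perm.sign ρ := h
    rw [h', Units.val_mul]
  · rfl

/-- The development of Laplace, summed over all choices of columns. -/
lemma laplace (s : Bool) {α β : Type} [Fintype α] [DecidableEq α] [Fintype β] [DecidableEq β]
    (p : C.A (X.prod X)) (x y : α ⊕ β → (W ⟶ X)) :
    ∑ σ : Equiv.Perm (α ⊕ β), wt s σ •
      (gd s (fun _ _ => p) (fun i => x (Sum.inl i)) (fun i => y (σ (Sum.inl i))) *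
        gd s (fun _ _ => p) (fun i => x (Sum.inr i)) (fun i => y (σ (Sum.inr i)))) =
      (Fintype.card (Equiv.Perm α) * Fintype.card (Equiv.Perm β) : ℕ) •
        gd s (fun _ _ => p) x y := by
  have h1 : ∀ σ : Equiv.Perm (α ⊕ β), wt s σ •
      (gd s (fun _ _ => p) (fun i => x (Sum.inl i)) (fun i => y (σ (Sum.inl i))) *
        gd s (fun _ _ => p) (fun i => x (Sum.inr i)) (fun i => y (σ (Sum.inr i)))) =
      ∑ τ : Equiv.Perm α, ∑ ρ : Equiv.Perm β, wt s (σ * Equiv.sumCongr τ ρ) •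
        ∏ i, ev p (x i) (y ((σ * Equiv.sumCongr τ ρ) i)) := by
    intro σ
    rw [gd, gd, Finset.sum_mul_sum, Finset.smul_sum]
    apply Finset.sum_congr rfl
    intro τ _
    rw [Finset.smul_sum]
    apply Finset.sum_congr rfl
    intro ρ _
    rw [smul_mul_smul_comm, smul_smul, wt_mul, wt_sumCongr, Fintype.prod_sum_type]
    rfl
  rw [Finset.sum_congr rfl (fun σ _ => h1 σ), Finset.sum_comm]
  have h2 : ∀ τ : Equiv.Perm α, ∑ σ : Equiv.Perm (α ⊕ β), ∑ ρ : Equiv.Perm β,
      wt s (σ * Equiv.sumCongr τ ρ) • ∏ i, ev p (x i) (y ((σ * Equiv.sumCongr τ ρ) i)) =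
      Fintype.card (Equiv.Perm β) • gd s (fun _ _ => p) x y := by
    intro τ
    rw [Finset.sum_comm, ← Finset.card_univ, ← Finset.sum_const]
    apply Finset.sum_congr rfl
    intro ρ _
    exact Equiv.sum_comp (Equiv.mulRight (Equiv.sumCongr τ ρ : Equiv.Perm (α ⊕ β)))
      (fun σ => wt s σ • ∏ i, ev p (x i) (y (σ i)))
  rw [Finset.sum_congr rfl (fun τ _ => h2 τ), Finset.sum_const, Finset.card_univ, smul_smul]

omit hC in
lemma wt_permCongr (s : Bool) {α β : Type} [Fintype α] [DecidableEq α] [Fintype β] [DecidableEq β]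
    (ε : α ≃ β) (σ : Equiv.Perm α) : wt s (ε.permCongr σ) = wt s σ := by
  unfold wt
  split_ifs
  · rw [Equiv.Perm.sign_permCongr]
  · rfl

lemma gd_reindex (s : Bool) {α β : Type} [Fintype α] [DecidableEq α] [Fintype β] [DecidableEq β]
    (ε : α ≃ β) (p : C.A (X.prod X)) (x y : β → (W ⟶ X)) :
    gd s (fun _ _ => p) (fun i => x (ε i)) (fun i => y (ε i)) = gd s (fun _ _ => p) x y := by
  rw [gd, gd, ← Equiv.sum_comp ε.permCongr]
  apply Finset.sum_congr rfl
  intro σ _
  rw [wt_permCongr, ← Equiv.prod_comp ε]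
  simp only [Equiv.permCongr_apply, Equiv.symm_apply_apply]

/-! ### Universal points -/

omit hC in
/-- The points `x`, `y` of `X` with values in `Z` are universal. -/
def Univ {n : ℕ} (x y : Fin n → (Z ⟶ X)) : Prop :=
  ∀ (V : 𝒱.Obj) (x' y' : Fin n → (V ⟶ X)), ∃ g : V ⟶ Z, (∀ i, g ≫ x i = x' i) ∧
    ∀ i, g ≫ y i = y' i

omit hC in
lemma exists_univ (X : 𝒱.Obj) (n : ℕ) : ∃ (Z : 𝒱.Obj) (x y : Fin (n + 1) → (Z ⟶ X)),
    Univ x y := by
  induction n with
  | zero =>
    refine ⟨X.prod X, fun _ => fst X X, fun _ => snd X X, fun V x' y' =>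
      ⟨Obj.lift (x' 0) (y' 0), fun i => ?_, fun i => ?_⟩⟩
    · rw [lift_fst, Subsingleton.elim (α := Fin 1) i 0]
    · rw [lift_snd, Subsingleton.elim (α := Fin 1) i 0]
  | succ n ih =>
    obtain ⟨Z, x, y, h⟩ := ih
    refine ⟨(X.prod X).prod Z, Fin.cons (fst (X.prod X) Z ≫ fst X X)
      (fun i => snd (X.prod X) Z ≫ x i), Fin.cons (fst (X.prod X) Z ≫ snd X X)
      (fun i => snd (X.prod X) Z ≫ y i), fun V x' y' => ?_⟩
    obtain ⟨g, h1, h2⟩ := h V (fun i => x' i.succ) (fun i => y' i.succ)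
    refine ⟨Obj.lift (Obj.lift (x' 0) (y' 0)) g, fun i => ?_, fun i => ?_⟩
    · refine Fin.cases ?_ (fun i => ?_) i
      · rw [Fin.cons_zero, lift_fst_assoc, lift_fst]
      · rw [Fin.cons_succ, lift_snd_assoc, h1]
    · refine Fin.cases ?_ (fun i => ?_) i
      · rw [Fin.cons_zero, lift_fst_assoc, lift_snd]
      · rw [Fin.cons_succ, lift_snd_assoc, h2]

/-- The system of the universal (anti)symmetrizations of a self-correspondence. -/
def dieSys (s : Bool) (e : R0 C X) (Z : 𝒱.Obj) (j : ℤ) (z : C.A Z) : Prop :=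
  ∃ (n : ℕ) (x y : Fin (n + 1) → (Z ⟶ X)), j = ((n + 1 : ℕ) : ℤ) * X.dim ∧
    z = gd s (fun _ _ => toA e) x y ∧ Univ x y

lemma gd_mem (s : Bool) (e : R0 C X) {n : ℕ} (x y : Fin n → (W ⟶ X)) :
    gd s (fun _ _ => toA e) x y ∈ C.gr W (n * X.dim) := by
  rw [gd]
  apply Submodule.sum_mem
  intro σ _
  rw [← Int.cast_smul_eq_zsmul ℚ]
  apply Submodule.smul_mem
  have h8 : ∀ S : Finset (Fin n), ∏ j ∈ S, ev (toA e) (x j) (y (σ j)) ∈
      C.gr W ((S.card : ℤ) * X.dim) := by
    intro S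
    induction S using Finset.induction_on with
    | empty =>
      rw [Finset.prod_empty, Finset.card_empty, Nat.cast_zero, zero_mul]
      exact C.one_mem W
    | insert j S hj ihS =>
      rw [Finset.prod_insert hj, Finset.card_insert_of_notMem hj]
      have e1 : ((S.card + 1 : ℕ) : ℤ) * (X.dim : ℤ) = X.dim + (S.card : ℤ) * X.dim := by
        push_cast; ring
      rw [e1]
      exact C.mul_mem (ev_mem (toA_mem _) _ _) ihS
  have h9 := h8 Finset.univ
  rwa [Finset.card_univ, Fintype.card_fin] at h9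

lemma isMult_dieSys (s : Bool) (e : R0 C X) : IsMult (C := C) (dieSys s e) where
  deg := by
    rintro Z j z ⟨n, x, y, rfl, rfl, -⟩
    exact gd_mem s e x y
  nonempty := by
    obtain ⟨Z, x, y, h⟩ := exists_univ X 0
    exact ⟨Z, _, _, 0, x, y, rfl, rfl, h⟩
  mul := by
    rintro Z W i j z w ⟨n, x, y, rfl, rfl, hu⟩ ⟨m, x2, y2, rfl, rfl, hu2⟩ I hI hst
    obtain ⟨V, x3, y3, hu3⟩ := exists_univ X (n + m + 1)
    refine ⟨V, _, _, ⟨n + m + 1, x3, y3, rfl, rfl, hu3⟩, ?_⟩
    let ε : Fin (n + 1) ⊕ Fin (m + 1) ≃ Fin (n + m + 1 + 1) :=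
      finSumFinEquiv.trans (finCongr (by ring))
    rw [← gd_reindex s ε]
    set x' : Fin (n + 1) ⊕ Fin (m + 1) → (V ⟶ X) := fun i => x3 (ε i) with hx'
    set y' : Fin (n + 1) ⊕ Fin (m + 1) → (V ⟶ X) := fun i => y3 (ε i) with hy'
    have h1 := laplace s (toA e) x' y'
    have h2 : ∑ σ : Equiv.Perm (Fin (n + 1) ⊕ Fin (m + 1)), wt s σ •
      (gd s (fun _ _ => toA e) (fun i => x' (Sum.inl i)) (fun i => y' (σ (Sum.inl i))) *
        gd s (fun _ _ => toA e) (fun i => x' (Sum.inr i)) (fun i => y' (σ (Sum.inr i)))) ∈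
        I V (((n + m + 1 + 1 : ℕ) : ℤ) * X.dim) := by
      apply Submodule.sum_mem
      intro σ _
      rw [← Int.cast_smul_eq_zsmul ℚ]
      apply Submodule.smul_mem
      obtain ⟨g1, h3, h4⟩ := hu V (fun i => x' (Sum.inl i)) (fun i => y' (σ (Sum.inl i)))
      obtain ⟨g2, h5, h6⟩ := hu2 V (fun i => x' (Sum.inr i)) (fun i => y' (σ (Sum.inr i)))
      have h7 := hI.pull_mem (Obj.lift g1 g2) hst
      rw [TheoryData.up, TheoryData.ext, map_mul, ← C.pull_comp, ← C.pull_comp, lift_fst,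
        lift_snd, pull_gd, pull_gd] at h7
      simp only [h3, h4, h5, h6] at h7
      refine hI.congr ?_ h7
      push_cast
      ring
    rw [h1, ← Nat.cast_smul_eq_nsmul ℚ] at h2
    have h8 := Submodule.smul_mem _ ((Fintype.card (Equiv.Perm (Fin (n + 1))) *
      Fintype.card (Equiv.Perm (Fin (m + 1))) : ℕ) : ℚ)⁻¹ h2
    rwa [smul_smul, inv_mul_cancel₀ (by
      have h9 : 0 < Fintype.card (Equiv.Perm (Fin (n + 1))) := Fintype.card_pos
      have h10 : 0 < Fintype.card (Equiv.Perm (Fin (m + 1))) := Fintype.card_pos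
      positivity), one_smul] at h8

/-- If some (anti)symmetrization vanishes modulo each prime adequate relation then some
(anti)symmetrization vanishes. -/
theorem dies_of_prime (s : Bool) (e : R0 C X)
    (h : ∀ P : Family C, IsPrime C P → ∃ n, Dies P s e (n + 1)) :
    ∃ n, Dies (ratFam C) s e (n + 1) := by
  by_contra hcon
  push Not at hcon
  have hav : Avoids (dieSys s e) (fun _ _ => ⊥ : Family C) := by
    rintro Z j z ⟨n, x, y, rfl, rfl, hu⟩ h2
    apply hcon n
    intro W x' y'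
    obtain ⟨g, h3, h4⟩ := hu W x' y'
    rw [Submodule.mem_bot] at h2
    have h5 := pull_gd s g (fun _ _ => toA e) x y
    rw [h2, map_zero] at h5
    simp only [h3, h4] at h5
    rw [← h5]
    exact Submodule.zero_mem _
  obtain ⟨P, hP, -, hPa⟩ := exists_prime_avoids (isMult_dieSys s e) isAdequate_bot hav
  obtain ⟨n, hn⟩ := h P hP
  obtain ⟨Z, x, y, hu⟩ := exists_univ X n
  exact hPa _ _ _ ⟨n, x, y, rfl, rfl, hu⟩ (hn Z x y)

/-! ### The main theorem -/

lemma altPower_eq {n : ℕ} (p : C.A (X.prod X)) (x y : Fin n → (W ⟶ X)) :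
    altPower C p x y = gd true (fun _ _ => p) x y := by
  rw [altPower, gd]
  apply Finset.sum_congr rfl
  intro σ _
  rw [show wt true σ = (Equiv.Perm.sign σ : ℤ) from rfl]
  congr 1
  exact List.prod_ofFn

lemma symPower_eq {n : ℕ} (p : C.A (X.prod X)) (x y : Fin n → (W ⟶ X)) :
    symPower C p x y = gd false (fun _ _ => p) x y := by
  rw [symPower, gd]
  apply Finset.sum_congr rfl
  intro σ _
  rw [show wt false σ = 1 from rfl, one_smul]
  exact List.prod_ofFn

/-- Finite-dimensionality in terms of the ring of self-correspondences. -/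
lemma isKimuraFinite_iff (I : Family C) (X : 𝒱.Obj) : IsKimuraFinite C I X ↔
    ∃ e : R0 C X, toA (e * e - e) ∈ I (X.prod X) X.dim ∧ (∃ n, Dies I true e (n + 1)) ∧
      ∃ n, Dies I false (1 - e) (n + 1) := by
  constructor
  · rintro ⟨p, hp, h1, ⟨n, hn, h2⟩, ⟨m, hm, h3⟩⟩
    obtain ⟨n, rfl⟩ := Nat.exists_eq_add_of_le' hn
    obtain ⟨m, rfl⟩ := Nat.exists_eq_add_of_le' hm
    refine ⟨ofA p hp, h1, ⟨n, fun W x y => ?_⟩, ⟨m, fun W x y => ?_⟩⟩
    · have h4 := h2 W x y
      rwa [altPower_eq] at h4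
    · have h4 := h3 W x y
      rwa [symPower_eq] at h4
  · rintro ⟨e, h1, ⟨n, h2⟩, ⟨m, h3⟩⟩
    refine ⟨toA e, toA_mem e, h1, ⟨n + 1, by omega, fun W x y => ?_⟩,
      ⟨m + 1, by omega, fun W x y => ?_⟩⟩
    · rw [altPower_eq]
      exact h2 W x y
    · rw [symPower_eq]
      exact h3 W x y

lemma IsKimuraFinite.mono {I J : Family C} (hIJ : I ≤ J) {X : 𝒱.Obj}
    (h : IsKimuraFinite C I X) : IsKimuraFinite C J X := by
  obtain ⟨p, hp, h1, ⟨n, hn, h2⟩, ⟨m, hm, h3⟩⟩ := h
  exact ⟨p, hp, hIJ _ _ h1, ⟨n, hn, fun W x y => hIJ _ _ (h2 W x y)⟩,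
    ⟨m, hm, fun W x y => hIJ _ _ (h3 W x y)⟩⟩

theorem kimura_iff (hne : ∀ X : 𝒱.Obj, (1 : C.A X) ≠ 0) (X : 𝒱.Obj) :
    IsKimuraFinite C (ratFam C) X ↔ ∀ P : Family C, IsPrime C P → IsKimuraFinite C P X := by
  constructor
  · intro h P _
    exact h.mono (fun _ _ => bot_le)
  intro h
  have hNum := isPrime_numFam hne
  obtain ⟨e, he1, ⟨n0, he2⟩, ⟨m0, he3⟩⟩ := (isKimuraFinite_iff _ X).1 (h _ hNum)
  -- the data for a prime relation
  have key : ∀ (P : Family C) (hP : IsPrime C P), ∃ f : R0 C X,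
      ∃ hle : P ≤ numFam C, (mk P hP.toIsAdequate X f * mk P hP.toIsAdequate X f =
        mk P hP.toIsAdequate X f) ∧ (∃ n, Dies P true f (n + 1)) ∧
      (∃ m, Dies P false (1 - f) (m + 1)) ∧
      InRad (trP hne P hP.toIsAdequate hle X)
        (mk P hP.toIsAdequate X e - mk P hP.toIsAdequate X f) ∧
      (∀ x, InRad (trP hne P hP.toIsAdequate hle X) x → IsNilpotent x) := by
    intro P hP
    have hle : P ≤ numFam C := hP.toIsAdequate.le_numFam hP.one_notMem
    obtain ⟨f, hf1, ⟨n, hf2⟩, ⟨m, hf3⟩⟩ := (isKimuraFinite_iff _ X).1 (h P hP)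
    have hidem : mk P hP.toIsAdequate X f * mk P hP.toIsAdequate X f =
        mk P hP.toIsAdequate X f := by
      rw [← map_mul, ← sub_eq_zero, ← map_sub]
      exact mk_eq_zero.2 hf1
    refine ⟨f, hle, hidem, ⟨n, hf2⟩, ⟨m, hf3⟩, ?_, ?_⟩
    · -- modulo numerical equivalence
      have hN := hNum.toIsAdequate
      have h1 : mk _ hN X e * mk _ hN X e = mk _ hN X e := by
        rw [← map_mul, ← sub_eq_zero, ← map_sub]
        exact mk_eq_zero.2 he1
      have h2 : mk _ hN X f * mk _ hN X f = mk _ hN X f := by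
        rw [← map_mul, ← sub_eq_zero, ← map_sub]
        exact mk_eq_zero.2 (hle _ _ hf1)
      have h3 : Dies (numFam C) true f (n + 1) := fun W x y => hle _ _ (hf2 W x y)
      have h4 : Dies (numFam C) false (1 - f) (m + 1) := fun W x y => hle _ _ (hf3 W x y)
      have hs : ∀ a b : RP (numFam C) hN X, trP hne _ hN le_rfl X (a * b) =
          trP hne _ hN le_rfl X (b * a) := fun a b => trP_comm a b
      have h5 := fun γ => tr_sub_mul (tr := trP hne _ hN le_rfl X) hs h1 h2
        (n := n0) (m := m0) (n' := n) (m' := m)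
        (Dies.killed (hne := hne) hNum.one_notMem he2)
        (by
          have := Dies.killed (hne := hne) (hP := hN) (hle := le_rfl) hNum.one_notMem he3
          rwa [map_sub, map_one] at this)
        (Dies.killed (hne := hne) hNum.one_notMem h3)
        (by
          have := Dies.killed (hne := hne) (hP := hN) (hle := le_rfl) hNum.one_notMem h4
          rwa [map_sub, map_one] at this) γ
      intro γ
      obtain ⟨γ, rfl⟩ := Ideal.Quotient.mk_surjective γ
      have h6 := h5 (mk _ hN X γ)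
      rw [← map_sub, ← map_mul, trP_mk] at h6
      rw [← map_sub, ← map_mul]
      exact h6
    · intro x hx
      have hs : ∀ a b : RP P hP.toIsAdequate X, trP hne P hP.toIsAdequate hle X (a * b) =
          trP hne P hP.toIsAdequate hle X (b * a) := fun a b => trP_comm a b
      refine isNilpotent_of_inRad hs hidem (n := n) (m := m)
        (Dies.killed (hne := hne) hP.one_notMem hf2) ?_ hx
      have := Dies.killed (hne := hne) (hP := hP.toIsAdequate) (hle := hle) hP.one_notMem hf3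
      rwa [map_sub, map_one] at this
  -- `e * e - e` is nilpotent
  have hrad : ∀ (P : Family C) (hP : IsPrime C P) (hle : P ≤ numFam C) (f : R0 C X),
      mk P hP.toIsAdequate X f * mk P hP.toIsAdequate X f = mk P hP.toIsAdequate X f →
      InRad (trP hne P hP.toIsAdequate hle X)
        (mk P hP.toIsAdequate X e - mk P hP.toIsAdequate X f) →
      InRad (trP hne P hP.toIsAdequate hle X) (mk P hP.toIsAdequate X (e * e - e)) := by
    intro P hP hle f hf hr
    have e1 : mk P hP.toIsAdequate X (e * e - e) =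
        (mk P hP.toIsAdequate X e - mk P hP.toIsAdequate X f) * mk P hP.toIsAdequate X e +
        mk P hP.toIsAdequate X f * (mk P hP.toIsAdequate X e - mk P hP.toIsAdequate X f) -
        (mk P hP.toIsAdequate X e - mk P hP.toIsAdequate X f) := by
      rw [map_sub, map_mul, mul_sub, sub_mul, hf]
      abel
    have hs : ∀ a b : RP P hP.toIsAdequate X, trP hne P hP.toIsAdequate hle X (a * b) =
        trP hne P hP.toIsAdequate hle X (b * a) := fun a b => trP_comm a b
    rw [e1]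
    exact ((hr.mul_right _).add (hr.mul_left hs _)).sub hr
  have hnil : IsNilpotent (e * e - e) := by
    apply isNilpotent_of_prime
    intro P hP
    obtain ⟨f, hle, hf, -, -, hr, hn⟩ := key P hP
    exact hn _ (hrad P hP hle f hf hr)
  obtain ⟨e', c, he', hc⟩ := exists_lift hnil
  -- the idempotent `e'` works
  have key2 : ∀ P : Family C, IsPrime C P → (∃ n, Dies P true e' (n + 1)) ∧
      ∃ n, Dies P false (1 - e') (n + 1) := by
    intro P hP
    obtain ⟨f, hle, hf, ⟨n, hf2⟩, ⟨m, hf3⟩, hr, hn⟩ := key P hP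
    have hr' : InRad (trP hne P hP.toIsAdequate hle X)
        (mk P hP.toIsAdequate X e' - mk P hP.toIsAdequate X f) := by
      have e1 : mk P hP.toIsAdequate X e' - mk P hP.toIsAdequate X f =
          mk P hP.toIsAdequate X (e * e - e) * mk P hP.toIsAdequate X c +
          (mk P hP.toIsAdequate X e - mk P hP.toIsAdequate X f) := by
        rw [← map_mul, ← hc, map_sub]
        abel
      rw [e1]
      exact ((hrad P hP hle f hf hr).mul_right _).add hr
    have he'' : mk P hP.toIsAdequate X e' * mk P hP.toIsAdequate X e' =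
        mk P hP.toIsAdequate X e' := by rw [← map_mul, he']
    have hs : ∀ a b : RP P hP.toIsAdequate X, trP hne P hP.toIsAdequate hle X (a * b) =
        trP hne P hP.toIsAdequate hle X (b * a) := fun a b => trP_comm a b
    obtain ⟨a, b, hab, -, hconj⟩ := exists_conj hs he'' hf hn hr'
    obtain ⟨a, rfl⟩ := Ideal.Quotient.mk_surjective a
    obtain ⟨b, rfl⟩ := Ideal.Quotient.mk_surjective b
    refine ⟨⟨n, hf2.conj (hP := hP.toIsAdequate) (u := a) (v := b) ?_⟩,
      ⟨m, hf3.conj (hP := hP.toIsAdequate) (u := a) (v := b) ?_⟩⟩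
    · rw [hconj, map_mul, map_mul]
    · rw [map_sub, map_one, hconj, map_mul, map_mul, map_sub, map_one, mul_sub, sub_mul, mul_one]
      congr 1
      exact hab.symm
  refine (isKimuraFinite_iff _ X).2 ⟨e', ?_, dies_of_prime true e' fun P hP => (key2 P hP).1,
    dies_of_prime false (1 - e') fun P hP => (key2 P hP).2⟩
  rw [he', sub_self, map_zero]
  exact Submodule.zero_mem _

end chow

end Pool.Agent.TH829.Kim
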