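import Mathlib.LinearAlgebra.Dual.Lemmas
import Mathlib.Algebra.Algebra.Operations
import Mathlib.Algebra.Polynomial.Roots
import Mathlib.Algebra.Algebra.Rat
import Mathlib.Tactic

/-!
# The theorem of Nagata and Higman
-/

open scoped Pointwise

namespace Pool.Agent.TH829.Kim

variable {R : Type*} [Ring R] [Algebra ℚ R]

/-- Expansion of `(x + t y)^N` to first order. -/
lemma exists_expansion (x y : R) (N : ℕ) : ∃ c : ℕ → R, (∀ t : ℚ, (x + t • y) ^ N =
    ∑ k ∈ Finset.range (N + 1), t ^ k • c k) ∧ c 0 = x ^ N ∧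
    c 1 = ∑ i ∈ Finset.range N, x ^ i * y * x ^ (N - 1 - i) := by
  induction N with
  | zero =>
    refine ⟨fun k => if k = 0 then 1 else 0, fun t => ?_, ?_, ?_⟩
    · simp
    · simp
    · simp
  | succ N ih =>
    obtain ⟨c, h1, h2, h3⟩ := ih
    let c' : ℕ → R := fun k => if k ≤ N then c k else 0
    refine ⟨fun k => x * c' k + (if k = 0 then 0 else y * c' (k - 1)), fun t => ?_, ?_, ?_⟩
    · have e1 : (x + t • y) ^ N = ∑ k ∈ Finset.range (N + 1), t ^ k • c' k := by
        rw [h1]
        apply Finset.sum_congr rfl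
        intro k hk
        rw [Finset.mem_range] at hk
        simp only [c', if_pos (Nat.lt_succ_iff.1 hk)]
      have e2 : c' (N + 1) = 0 := if_neg (by omega)
      rw [pow_succ', e1, add_mul]
      simp only [smul_add, Finset.sum_add_distrib]
      congr 1
      · rw [Finset.sum_range_succ _ (N + 1), e2, mul_zero, smul_zero, add_zero, Finset.mul_sum]
        apply Finset.sum_congr rfl
        intro k _
        rw [mul_smul_comm]
      · rw [Finset.sum_range_succ' _ (N + 1)]
        simp only [Nat.add_eq_zero_iff, one_ne_zero, and_false, if_false, Nat.add_sub_cancel,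
          if_true, smul_zero, add_zero]
        rw [Finset.mul_sum]
        apply Finset.sum_congr rfl
        intro k _
        rw [mul_smul_comm, smul_mul_assoc, smul_smul, pow_succ]
    · simp only [c', if_true, add_zero, Nat.zero_le, h2]
      rw [pow_succ']
    · by_cases hN : N = 0
      · subst hN
        simp [c', h2]
      · have h4 : c' 1 = c 1 := if_pos (by omega)
        have h5 : c' (1 - 1) = x ^ N := by
          simp only [c', Nat.sub_self, Nat.zero_le, if_true, h2]
        simp only [one_ne_zero, if_false]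
        rw [h4, h5, h3, Finset.sum_range_succ', Finset.mul_sum]
        simp only [pow_zero, one_mul]
        congr 1
        apply Finset.sum_congr rfl
        intro i hi
        rw [pow_succ', show N + 1 - 1 - (i + 1) = N - 1 - i by omega]
        simp only [mul_assoc]

/-- The linearization of `x^N ∈ J`. -/
lemma linearize (B J : Submodule ℚ R) {N : ℕ} (h : ∀ x ∈ B, x ^ N ∈ J) {x y : R} (hx : x ∈ B)
    (hy : y ∈ B) (hN : 1 ≤ N) :
    ∑ i ∈ Finset.range N, x ^ i * y * x ^ (N - 1 - i) ∈ J := by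
  obtain ⟨c, h1, -, h3⟩ := exists_expansion x y N
  rw [← h3]
  rw [← Submodule.Quotient.mk_eq_zero J]
  rw [← Module.forall_dual_apply_eq_zero_iff ℚ]
  intro φ
  let q : Polynomial ℚ := ∑ k ∈ Finset.range (N + 1),
    Polynomial.monomial k (φ (Submodule.Quotient.mk (c k)))
  have hq : ∀ t : ℚ, q.eval t = 0 := by
    intro t
    have h4 : (x + t • y) ^ N ∈ J := h _ (B.add_mem hx (B.smul_mem t hy))
    rw [← Submodule.Quotient.mk_eq_zero J, h1] at h4
    have h5 : φ (Submodule.Quotient.mk (∑ k ∈ Finset.range (N + 1), t ^ k • c k)) = 0 := by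
      rw [h4, map_zero]
    rw [← Submodule.mkQ_apply, map_sum, map_sum] at h5
    simp only [q, Polynomial.eval_finsetSum, Polynomial.eval_monomial]
    rw [← h5]
    apply Finset.sum_congr rfl
    intro k _
    rw [map_smul, map_smul, smul_eq_mul, mul_comm]
    rfl
  have hq0 : q = 0 := Polynomial.funext (by simpa using hq)
  have h6 : q.coeff 1 = φ (Submodule.Quotient.mk (c 1)) := by
    simp only [q, Polynomial.finsetSum_coeff, Polynomial.coeff_monomial]
    rw [Finset.sum_eq_single 1]
    · simp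
    · intro b _ hb
      rw [if_neg hb]
    · intro h7
      exact absurd (Finset.mem_range.2 (by omega)) h7
  rw [← h6, hq0, Polynomial.coeff_zero]

/-- Powers of elements of a multiplicatively closed subspace. -/
lemma pow_mem_of {B : Submodule ℚ R} (hB : ∀ x ∈ B, ∀ y ∈ B, x * y ∈ B) {x : R} (hx : x ∈ B)
    (n : ℕ) : x ^ (n + 1) ∈ B := by
  induction n with
  | zero => rwa [zero_add, pow_one]
  | succ n ih => rw [pow_succ]; exact hB _ ih _ hx

/-- Higman's identity. -/
lemma higman {B J : Submodule ℚ R} (hB : ∀ x ∈ B, ∀ y ∈ B, x * y ∈ B)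
    (hl : ∀ x ∈ B, ∀ y ∈ J, x * y ∈ J) (hr : ∀ x ∈ J, ∀ y ∈ B, x * y ∈ J) {n : ℕ}
    (h : ∀ x ∈ B, x ^ (n + 1) ∈ J) {x y z : R} (hx : x ∈ B) (hy : y ∈ B) (hz : z ∈ B) :
    x ^ n * z * y ^ n ∈ J := by
  have hlin : ∀ {u v : R}, u ∈ B → v ∈ B →
      ∑ i ∈ Finset.range (n + 1), u ^ (n - i) * v * u ^ i ∈ J := by
    intro u v hu hv
    have h1 := linearize B J h hu hv (by omega)
    rw [← Finset.sum_range_reflect] at h1
    convert h1 using 1
    apply Finset.sum_congr rfl
    intro i hi
    rw [Finset.mem_range] at hi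
    rw [show n + 1 - 1 - i = n - i by omega, show n + 1 - 1 - (n - i) = i by omega]
  have hlin' : ∀ {u v : R}, u ∈ B → v ∈ B →
      ∑ j ∈ Finset.range (n + 1), u ^ j * v * u ^ (n - j) ∈ J := by
    intro u v hu hv
    have h1 := linearize B J h hu hv (by omega)
    simpa only [Nat.add_sub_cancel] using h1
  have hpr : ∀ {u v : R}, u ∈ J → v ∈ B → ∀ k : ℕ, u * v ^ k ∈ J := by
    intro u v hu hv k
    rcases k with _ | k
    · rwa [pow_zero, mul_one]
    · exact hr _ hu _ (pow_mem_of hB hv k)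
  have hpl : ∀ {u v : R}, u ∈ B → v ∈ J → ∀ k : ℕ, u ^ k * v ∈ J := by
    intro u v hu hv k
    rcases k with _ | k
    · rwa [pow_zero, one_mul]
    · exact hl _ (pow_mem_of hB hu k) _ hv
  -- the double sum
  have hS : ∑ j ∈ Finset.range (n + 1), ∑ i ∈ Finset.range (n + 1),
      x ^ (n - i) * (z * y ^ j) * x ^ i * y ^ (n - j) ∈ J := by
    apply Submodule.sum_mem
    intro j _
    rw [← Finset.sum_mul]
    apply hpr _ hy
    apply hlin hx
    rcases j with _ | j
    · rwa [pow_zero, mul_one]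
    · exact hB _ hz _ (pow_mem_of hB hy j)
  rw [Finset.sum_comm, Finset.sum_range_succ' _ n] at hS
  have h1 : ∑ i ∈ Finset.range n, ∑ j ∈ Finset.range (n + 1),
      x ^ (n - (i + 1)) * (z * y ^ j) * x ^ (i + 1) * y ^ (n - j) ∈ J := by
    apply Submodule.sum_mem
    intro i _
    have e : ∑ j ∈ Finset.range (n + 1), x ^ (n - (i + 1)) * (z * y ^ j) * x ^ (i + 1) *
        y ^ (n - j) = x ^ (n - (i + 1)) * (z * ∑ j ∈ Finset.range (n + 1),
          y ^ j * x ^ (i + 1) * y ^ (n - j)) := by
      rw [Finset.mul_sum, Finset.mul_sum]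
      apply Finset.sum_congr rfl
      intro j _
      simp only [mul_assoc]
    rw [e]
    exact hpl hx (hl _ hz _ (hlin' hy (pow_mem_of hB hx i))) _
  have h2 := (Submodule.add_mem_iff_right J h1).1 hS
  have h3 : ∑ j ∈ Finset.range (n + 1), x ^ (n - 0) * (z * y ^ j) * x ^ 0 * y ^ (n - j) =
      ((n + 1 : ℕ) : ℚ) • (x ^ n * z * y ^ n) := by
    have h4 : ∀ j ∈ Finset.range (n + 1), x ^ (n - 0) * (z * y ^ j) * x ^ 0 * y ^ (n - j) =
        x ^ n * z * y ^ n := by
      intro j hj
      rw [Finset.mem_range] at hj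
      rw [Nat.sub_zero, pow_zero, mul_one, ← mul_assoc, mul_assoc _ (y ^ j), ← pow_add,
        show j + (n - j) = n by omega]
    rw [Finset.sum_congr rfl h4, Finset.sum_const, Finset.card_range, Nat.cast_smul_eq_nsmul]
  rw [h3] at h2
  have h5 := J.smul_mem (((n + 1 : ℕ) : ℚ)⁻¹) h2
  rwa [smul_smul, inv_mul_cancel₀ (by positivity), one_smul] at h5

/-- The theorem of Nagata and Higman, relative form. -/
theorem nagata_higman (n : ℕ) : ∀ {B J : Submodule ℚ R}, (∀ x ∈ B, ∀ y ∈ B, x * y ∈ B) →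
    J ≤ B → (∀ x ∈ B, ∀ y ∈ J, x * y ∈ J) → (∀ x ∈ J, ∀ y ∈ B, x * y ∈ J) →
    (∀ x ∈ B, x ^ (n + 1) ∈ J) → B ^ (2 ^ (n + 1) - 1) ≤ J := by
  induction n with
  | zero =>
    intro B J hB hJB hl hr h x hx
    rw [show 2 ^ (0 + 1) - 1 = 1 by norm_num, pow_one] at hx
    have := h x hx
    rwa [zero_add, pow_one] at this
  | succ n ih =>
    intro B J hB hJB hl hr h
    -- the ideal generated by the powers `x^(n+1)`
    let T : Submodule ℚ R := Submodule.span ℚ {z | ∃ x ∈ B, z = x ^ (n + 1)}
    let B1 : Submodule ℚ R := 1 ⊔ B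
    have hTB : T ≤ B := Submodule.span_le.2 (by
      rintro _ ⟨x, hx, rfl⟩
      exact pow_mem_of hB hx n)
    have hBB : B * B ≤ B := Submodule.mul_le.2 hB
    have hBJ : B * J ≤ J := Submodule.mul_le.2 hl
    have hJB' : J * B ≤ J := Submodule.mul_le.2 hr
    have hB1B : B1 * B ≤ B := by
      rw [Submodule.sup_mul, one_mul]
      exact sup_le le_rfl hBB
    have hBB1 : B * B1 ≤ B := by
      rw [Submodule.mul_sup, mul_one]
      exact sup_le le_rfl hBB
    have hB1J : B1 * J ≤ J := by
      rw [Submodule.sup_mul, one_mul]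
      exact sup_le le_rfl hBJ
    have hJB1 : J * B1 ≤ J := by
      rw [Submodule.mul_sup, mul_one]
      exact sup_le le_rfl hJB'
    have hB1B1 : B1 * B1 ≤ B1 := by
      rw [show B1 * B1 = (1 ⊔ B) * B1 from rfl, Submodule.sup_mul, one_mul]
      exact sup_le le_rfl (hBB1.trans le_sup_right)
    have hTBT : T * B * T ≤ J := by
      have h1 : T * B * T = Submodule.span ℚ ({z | ∃ x ∈ B, z = x ^ (n + 1)} * (B : Set R) *
          {z | ∃ x ∈ B, z = x ^ (n + 1)}) := by
        rw [← Submodule.span_mul_span, ← Submodule.span_mul_span, Submodule.span_eq]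
      rw [h1, Submodule.span_le]
      rintro _ ⟨_, ⟨_, ⟨x, hx, rfl⟩, z, hz, rfl⟩, _, ⟨y, hy, rfl⟩, rfl⟩
      exact higman hB hl hr h hx hy hz
    let J' : Submodule ℚ R := J ⊔ B1 * T * B1
    have hJ'B : J' ≤ B := by
      apply sup_le hJB
      calc B1 * T * B1 ≤ B1 * B * B1 := by gcongr
        _ ≤ B * B1 := by gcongr
        _ ≤ B := hBB1
    have hBJ' : B * J' ≤ J' := by
      rw [Submodule.mul_sup]
      apply sup_le (hBJ.trans le_sup_left)
      refine le_trans ?_ le_sup_right
      rw [← mul_assoc, ← mul_assoc]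
      gcongr
      exact hBB1.trans le_sup_right
    have hJ'B' : J' * B ≤ J' := by
      rw [Submodule.sup_mul]
      apply sup_le (hJB'.trans le_sup_left)
      refine le_trans ?_ le_sup_right
      rw [mul_assoc]
      gcongr
      exact hB1B.trans le_sup_right
    have hTJ' : T ≤ J' := by
      refine le_trans ?_ le_sup_right
      calc T = 1 * T * 1 := by rw [one_mul, mul_one]
        _ ≤ B1 * T * B1 := by gcongr <;> exact le_sup_left
    have key := ih (B := B) (J := J') hB hJ'B (Submodule.mul_le.1 hBJ') (Submodule.mul_le.1 hJ'B')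
      (fun x hx => hTJ' (Submodule.subset_span ⟨x, hx, rfl⟩))
    have e : 2 ^ (n + 1 + 1) - 1 = (2 ^ (n + 1) - 1) + 1 + (2 ^ (n + 1) - 1) := by
      have : 1 ≤ 2 ^ (n + 1) := Nat.one_le_two_pow
      rw [pow_succ 2 (n + 1)]
      omega
    rw [e, pow_add, pow_add, pow_one]
    calc B ^ (2 ^ (n + 1) - 1) * B * B ^ (2 ^ (n + 1) - 1) ≤ J' * B * J' := by gcongr
      _ ≤ J := ?_
    rw [show J' * B * J' = (J ⊔ B1 * T * B1) * B * J' from rfl, Submodule.sup_mul,
      Submodule.sup_mul]
    apply sup_le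
    · calc J * B * J' ≤ J * J' := by gcongr
        _ ≤ J * B := by gcongr
        _ ≤ J := hJB'
    · rw [show B1 * T * B1 * B * J' = B1 * T * B1 * B * (J ⊔ B1 * T * B1) from rfl,
        Submodule.mul_sup]
      apply sup_le
      · calc B1 * T * B1 * B * J ≤ B1 * B * B1 * B * J := by gcongr
          _ ≤ B * B1 * B * J := by gcongr
          _ ≤ B * B * J := by gcongr
          _ ≤ B * J := by gcongr
          _ ≤ J := hBJ
      · calc B1 * T * B1 * B * (B1 * T * B1) = B1 * (T * (B1 * B * B1) * T) * B1 := by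
              simp only [mul_assoc]
          _ ≤ B1 * (T * B * T) * B1 := by
              have : B1 * B * B1 ≤ B := (mul_le_mul_left hB1B B1).trans hBB1
              gcongr
          _ ≤ B1 * J * B1 := by gcongr
          _ ≤ J * B1 := by gcongr
          _ ≤ J := hJB1

end Pool.Agent.TH829.Kim
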