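import Pool.Agent.TH829.Prime.Num

/-!
# Correspondences and points
-/

open CategoryTheory AlgebraicGeometry

universe u v w

namespace Pool.Agent.TH829.Kim

open Pool.Agent.H914 Pool.Agent.H914.VarClass Pool.Agent.H914.VarClass.Obj Pool.Agent.W492.BB
  Pool.Agent.W550.Corr Pool.Agent.TH133 Pool.Agent.TH829.Prime

set_option linter.unusedSectionVars false

variable {k : Type u} [Field k] {𝒱 : VarClass k}

section chow

variable {C : TheoryData.{u, v, 0} 𝒱 ℚ} [hC : IsChowProj C] {X Y Z W V : 𝒱.Obj}

/-- The rings `A(W)` are commutative. -/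
noncomputable instance chCommRing (W : 𝒱.Obj) : CommRing (C.A W) :=
  { (inferInstance : Ring (C.A W)) with mul_comm := ch_comm C }

include hC

/-- Base change along arbitrary morphisms for the projections. -/
lemma base_pull (f : W ⟶ Y) (w : C.A (Y.prod Z)) :
    C.pull f (C.push (fst Y Z) w) = C.push (fst W Z) (C.pull (prodMap f (𝟙 Z)) w) := by
  have h0 : ∀ z : C.A Y, C.pull f z = C.push (fst W Y) (C.push (Obj.lift (𝟙 W) f) 1 *
      C.pull (snd W Y) z) := by
    intro z
    rw [← C.proj_right, ← C.push_comp, ← C.pull_comp, lift_fst, lift_snd, one_mul, C.push_id]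
  have e1 : prodMap (𝟙 W) (fst Y Z) = aJ W Y Z ≫ fst (W.prod Y) Z := by
    apply prod_ext <;> simp [aJ, comp_lift]
  have h1 : C.pull (prodMap (𝟙 W) (fst Y Z)) (C.push (Obj.lift (𝟙 W) f) 1) =
      C.push (prodMap (Obj.lift (𝟙 W) f) (𝟙 Z) ≫ aI W Y Z) 1 := by
    rw [e1, C.pull_comp, C.base_fst, map_one, pull_iso C (aJ W Y Z) (aI W Y Z) aJ_aI aI_aJ,
      ← C.push_comp]
  have e2 : prodMap (𝟙 W) (fst Y Z) ≫ fst W Y = fst W (Y.prod Z) := by simp
  have e3 : (prodMap (Obj.lift (𝟙 W) f) (𝟙 Z) ≫ aI W Y Z) ≫ fst W (Y.prod Z) = fst W Z := by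
    simp [aI]
  have e4 : (prodMap (Obj.lift (𝟙 W) f) (𝟙 Z) ≫ aI W Y Z) ≫ snd W (Y.prod Z) =
      prodMap f (𝟙 Z) := by
    apply prod_ext <;> simp [aI]
  rw [h0, C.base_snd, ← C.proj_left, ← C.push_comp, e2, h1, ← C.proj_right, ← C.push_comp,
    ← C.pull_comp, e3, e4, one_mul]

/-- The value `p(x, y)` of the correspondence `p` at the points `x`, `y` of `X` with values in
`W`. -/
noncomputable def ev (p : C.A (X.prod X)) (x y : W ⟶ X) : C.A W := C.pull (Obj.lift x y) p

lemma pull_ev (g : V ⟶ W) (p : C.A (X.prod X)) (x y : W ⟶ X) :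
    C.pull g (ev p x y) = ev p (g ≫ x) (g ≫ y) := by
  rw [ev, ev, ← C.pull_comp, comp_lift]

lemma ev_univ (p : C.A (X.prod X)) : ev p (fst X X) (snd X X) = p := by
  rw [ev, lift_eta, C.pull_id]

lemma ev_mem {p : C.A (X.prod X)} {i : ℤ} (hp : p ∈ C.gr (X.prod X) i) (x y : W ⟶ X) :
    ev p x y ∈ C.gr W i := C.pull_mem _ hp

lemma ev_add (p q : C.A (X.prod X)) (x y : W ⟶ X) : ev (p + q) x y = ev p x y + ev q x y :=
  map_add _ _ _

lemma ev_smul (r : ℚ) (p : C.A (X.prod X)) (x y : W ⟶ X) : ev (r • p) x y = r • ev p x y :=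
  map_smul _ _ _

/-- The exchange of the last two factors of `(X × X) × X`. -/
noncomputable def rho (X : 𝒱.Obj) : (X.prod X).prod X ⟶ (X.prod X).prod X :=
  Obj.lift (Obj.lift (fst (X.prod X) X ≫ fst X X) (snd (X.prod X) X))
    (fst (X.prod X) X ≫ snd X X)

omit hC in
lemma rho_rho (X : 𝒱.Obj) : rho X ≫ rho X = 𝟙 _ := by
  apply prod_ext
  · apply prod_ext <;> simp [rho, comp_lift]
  · simp [rho, comp_lift]

/-- The value of a composition. -/
lemma ev_comp (a b : C.A (X.prod X)) (x y : W ⟶ X) :
    ev (C.comp a b) x y = C.push (fst W X) (ev a (fst W X ≫ x) (snd W X) *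
      ev b (snd W X) (fst W X ≫ y)) := by
  have e1 : t13 X X X = rho X ≫ fst (X.prod X) X := by
    apply prod_ext <;> simp [rho, comp_lift]
  have e2 : (prodMap (Obj.lift x y) (𝟙 X) ≫ rho X) ≫ t23 X X X =
      Obj.lift (snd W X) (fst W X ≫ y) := by
    apply prod_ext <;> simp [rho, comp_lift]
  have e3 : (prodMap (Obj.lift x y) (𝟙 X) ≫ rho X) ≫ fst (X.prod X) X =
      Obj.lift (fst W X ≫ x) (snd W X) := by
    apply prod_ext <;> simp [rho, comp_lift]
  rw [ev, TheoryData.comp, e1, C.push_comp, ← pull_iso C (rho X) (rho X) (rho_rho X) (rho_rho X),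
    base_pull, ← C.pull_comp, map_mul, ← C.pull_comp, ← C.pull_comp, e2, e3, ch_comm C]
  rfl

/-- The value at a point of the diagonal, pushed forward. -/
lemma push_ev_diag {p : C.A (X.prod X)} {q : ℚ} (hq : HasDegree C (ev p (𝟙 X) (𝟙 X)) q)
    (W : 𝒱.Obj) : C.push (fst W X) (ev p (snd W X) (snd W X)) = q • (1 : C.A W) := by
  have h := (hq W).2
  rw [pull_ev, Category.comp_id] at h
  exact h

/-! ### Generalized determinants -/

/-- The sign of `σ` if `s = true`, and one if `s = false`. -/
def wt (s : Bool) {ι : Type} [Fintype ι] [DecidableEq ι] (σ : Equiv.Perm ι) : ℤ :=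
  if s then (Equiv.Perm.sign σ : ℤ) else 1

omit hC in
lemma wt_mul (s : Bool) {ι : Type} [Fintype ι] [DecidableEq ι] (σ τ : Equiv.Perm ι) :
    wt s (σ * τ) = wt s σ * wt s τ := by
  unfold wt
  split_ifs
  · rw [Equiv.Perm.sign_mul, Units.val_mul]
  · rfl

/-- `-1` for the determinant and `1` for the permanent. -/
def eta (s : Bool) : ℚ := if s then -1 else 1

variable {ι : Type} [Fintype ι] [DecidableEq ι]

/-- The determinant (`s = true`) or permanent (`s = false`) of the matrix with entries
`p i j (x i, y j)`. -/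
noncomputable def gd (s : Bool) (p : ι → ι → C.A (X.prod X)) (x y : ι → (W ⟶ X)) : C.A W :=
  ∑ σ : Equiv.Perm ι, wt s σ • ∏ i, ev (p i (σ i)) (x i) (y (σ i))

lemma pull_gd (s : Bool) (g : V ⟶ W) (p : ι → ι → C.A (X.prod X)) (x y : ι → (W ⟶ X)) :
    C.pull g (gd s p x y) = gd s p (fun i => g ≫ x i) (fun i => g ≫ y i) := by
  rw [gd, gd, map_sum]
  apply Finset.sum_congr rfl
  intro σ _
  rw [map_zsmul, map_prod]
  simp only [pull_ev]

/-- Row operations. -/
lemma gd_row (s : Bool) (p : ι → ι → C.A (X.prod X)) (i : ι) (a : C.A (X.prod X))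
    (x y : ι → (W ⟶ X)) :
    gd s (Function.update p i (fun j => C.comp a (p i j))) x y =
      C.push (fst W X) (ev a (fst W X ≫ x i) (snd W X) *
        gd s p (Function.update (fun k => fst W X ≫ x k) i (snd W X))
          (fun k => fst W X ≫ y k)) := by
  rw [gd, gd, Finset.mul_sum, map_sum]
  apply Finset.sum_congr rfl
  intro σ _
  rw [mul_smul_comm, map_zsmul]
  congr 1
  rw [← Finset.mul_prod_erase Finset.univ _ (Finset.mem_univ i),
    ← Finset.mul_prod_erase Finset.univ _ (Finset.mem_univ i), Function.update_self,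
    Function.update_self, ev_comp, ← C.proj_right, map_prod, ← mul_assoc]
  congr 2
  apply Finset.prod_congr rfl
  intro j hj
  have hji : j ≠ i := (Finset.mem_erase.1 hj).1
  rw [Function.update_of_ne hji, Function.update_of_ne hji, pull_ev]

/-- Column operations. -/
lemma gd_col (s : Bool) (p : ι → ι → C.A (X.prod X)) (j : ι) (b : C.A (X.prod X))
    (x y : ι → (W ⟶ X)) :
    gd s (fun i l => if l = j then C.comp (p i l) b else p i l) x y =
      C.push (fst W X) (ev b (snd W X) (fst W X ≫ y j) *
        gd s p (fun k => fst W X ≫ x k)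
          (Function.update (fun k => fst W X ≫ y k) j (snd W X))) := by
  rw [gd, gd, Finset.mul_sum, map_sum]
  apply Finset.sum_congr rfl
  intro σ _
  rw [mul_smul_comm, map_zsmul]
  congr 1
  have hσ : σ (σ.symm j) = j := σ.apply_symm_apply j
  rw [← Finset.mul_prod_erase Finset.univ _ (Finset.mem_univ (σ.symm j)),
    ← Finset.mul_prod_erase Finset.univ _ (Finset.mem_univ (σ.symm j))]
  beta_reduce
  rw [hσ, if_pos rfl, Function.update_self, ev_comp, ← C.proj_right, map_prod, ← mul_assoc,
    ch_comm C (ev b _ _)]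
  congr 2
  apply Finset.prod_congr rfl
  intro i hi
  have hij : σ i ≠ j := by
    rintro rfl
    exact (Finset.mem_erase.1 hi).1 (σ.symm_apply_apply i).symm
  rw [if_neg hij, Function.update_of_ne hij, pull_ev]

/-- The determinants belong to the adequate relation `I`. -/
def Van (I : Family C) (s : Bool) (p : ι → ι → C.A (X.prod X)) (e : ℤ) : Prop :=
  ∀ (W : 𝒱.Obj) (x y : ι → (W ⟶ X)), gd s p x y ∈ I W e

lemma Van.row {I : Family C} (hI : IsAdequate C I) {s : Bool} {p : ι → ι → C.A (X.prod X)} {e : ℤ}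
    (h : Van I s p e) (i : ι) {a : C.A (X.prod X)} (ha : a ∈ C.gr (X.prod X) X.dim) :
    Van I s (Function.update p i (fun j => C.comp a (p i j))) e := by
  intro W x y
  rw [gd_row]
  have h1 := hI.push_mem (fst W X) (hI.mul_mem' (ev_mem ha (fst W X ≫ x i) (snd W X))
    (h (W.prod X) (Function.update (fun k => fst W X ≫ x k) i (snd W X))
      (fun k => fst W X ≫ y k)))
  refine hI.congr ?_ h1
  rw [dim_prod]; push_cast; ring

lemma Van.col {I : Family C} (hI : IsAdequate C I) {s : Bool} {p : ι → ι → C.A (X.prod X)} {e : ℤ}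
    (h : Van I s p e) (j : ι) {b : C.A (X.prod X)} (hb : b ∈ C.gr (X.prod X) X.dim) :
    Van I s (fun i l => if l = j then C.comp (p i l) b else p i l) e := by
  intro W x y
  rw [gd_col]
  have h1 := hI.push_mem (fst W X) (hI.mul_mem' (ev_mem hb (snd W X) (fst W X ≫ y j))
    (h (W.prod X) (fun k => fst W X ≫ x k)
      (Function.update (fun k => fst W X ≫ y k) j (snd W X))))
  refine hI.congr ?_ h1
  rw [dim_prod]; push_cast; ring

/-- All rows of the determinant of `f` composed with correspondences. -/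
lemma Van.rows {I : Family C} (hI : IsAdequate C I) {s : Bool} {f : C.A (X.prod X)} {e : ℤ}
    (h : Van (ι := ι) I s (fun _ _ => f) e) {a : ι → C.A (X.prod X)}
    (ha : ∀ i, a i ∈ C.gr (X.prod X) X.dim) : Van I s (fun i _ => C.comp (a i) f) e := by
  have key : ∀ T : Finset ι, Van I s (fun i (_ : ι) => if i ∈ T then C.comp (a i) f else f) e := by
    intro T
    induction T using Finset.induction_on with
    | empty => simpa using h
    | insert i T hi ih =>
      have h1 := ih.row hI i (ha i)
      convert h1 using 1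
      funext j l
      by_cases hj : j = i
      · subst hj
        rw [Function.update_self, if_pos (Finset.mem_insert_self _ _), if_neg hi]
      · rw [Function.update_of_ne hj]
        by_cases hjT : j ∈ T
        · rw [if_pos hjT, if_pos (Finset.mem_insert_of_mem hjT)]
        · rw [if_neg hjT, if_neg (by simp [hj, hjT])]
  have := key Finset.univ
  simpa using this

/-- All columns composed with a correspondence. -/
lemma Van.cols {I : Family C} (hI : IsAdequate C I) {s : Bool} {p : ι → ι → C.A (X.prod X)} {e : ℤ}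
    (h : Van I s p e) {b : C.A (X.prod X)} (hb : b ∈ C.gr (X.prod X) X.dim) :
    Van I s (fun i j => C.comp (p i j) b) e := by
  have key : ∀ T : Finset ι, Van I s (fun i j => if j ∈ T then C.comp (p i j) b else p i j) e := by
    intro T
    induction T using Finset.induction_on with
    | empty => simpa using h
    | insert l T hl ih =>
      have h1 := ih.col hI l hb
      convert h1 using 1
      funext i j
      by_cases hj : j = l
      · subst hj
        rw [if_pos (Finset.mem_insert_self _ _), if_pos rfl, if_neg hl]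
      · rw [if_neg hj]
        by_cases hjT : j ∈ T
        · rw [if_pos hjT, if_pos (Finset.mem_insert_of_mem hjT)]
        · rw [if_neg hjT, if_neg (by simp [hj, hjT])]
  have := key Finset.univ
  simpa using this

end chow

end Pool.Agent.TH829.Kim
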