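import Pool.Agent.TH829.Kim.Main
import Pool.Agent.TH829.Kim.DefsSurf

/-!
# Surfaces with `p_g = 0` modulo prime adequate relations
-/

open CategoryTheory AlgebraicGeometry

universe u v w

namespace Pool.Agent.TH829.Kim

open Pool.Agent.H914 Pool.Agent.H914.VarClass Pool.Agent.H914.VarClass.Obj Pool.Agent.W492.BB
  Pool.Agent.W550.Corr Pool.Agent.TH133 Pool.Agent.TH829.Prime

set_option linter.unusedSectionVars false

/-- An idempotent of trace zero with a vanishing (anti)symmetrization is zero. -/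
lemma idem_eq_zero {R : Type*} [Ring R] [Algebra ℚ R] {tr : R →ₗ[ℚ] ℚ} {η : ℚ} {ε : R}
    (hε : ε * ε = ε) (htr : tr ε = 0) (hη : η ≠ 0) {n : ℕ} (h : K tr η n (fun _ => ε) = 0) :
    ε = 0 := by
  have h1 := K_idem tr η hε n
  rw [h, htr] at h1
  refine (smul_eq_zero.1 h1.symm).resolve_left (Finset.prod_ne_zero_iff.2 ?_)
  intro j _
  have hj : (0 : ℚ) < (j : ℚ) + 1 := by positivity
  rw [zero_add]
  exact mul_ne_zero hη hj.ne'

variable {k : Type u} [Field k] {𝒱 : VarClass k}

variable {C : TheoryData.{u, v, 0} 𝒱 ℚ} [hC : IsChowProj C] {S : 𝒱.Obj}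

include hC

/-- An idempotent of trace zero some exterior or symmetric power of which vanishes is zero. -/
lemma mk_eq_zero_of_dies {X : 𝒱.Obj} (hne : ∀ X : 𝒱.Obj, (1 : C.A X) ≠ 0) {P : Family C}
    (hP : IsPrime C P) {q : R0 C X} (hq : q * q = q) (htr : trL hne X q = 0) {s : Bool} {n : ℕ}
    (h : Dies P s q (n + 1)) : mk P hP.toIsAdequate X q = 0 := by
  have hle : P ≤ numFam C := hP.toIsAdequate.le_numFam hP.one_notMem
  have hK := Dies.killed (hne := hne) (hP := hP.toIsAdequate) (hle := hle) hP.one_notMem h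
  have hqq : mk P hP.toIsAdequate X q * mk P hP.toIsAdequate X q = mk P hP.toIsAdequate X q := by
    rw [← map_mul, hq]
  refine idem_eq_zero hqq ?_ (η := eta s) ?_ (hK.K_eq _ (fun _ => hqq))
  · rw [trP_mk, htr]
  · unfold eta
    split_ifs <;> norm_num

theorem bloch_primes_tfae (hne : ∀ X : 𝒱.Obj, (1 : C.A X) ≠ 0) (hSd : S.dim = 2)
    (hfd : AlbInjective C S → IsKimuraFinite C (ratFam C) S) {q : C.A (S.prod S)}
    (hq : IsTransProj C S q) :
    List.TFAE [AlbInjective C S, ∀ P : Family C, IsPrime C P → IsKimuraFinite C P S,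
      ∀ P : Family C, IsPrime C P → PowerVanishes C P q, q = 0] := by
  have hqd : q ∈ C.gr (S.prod S) S.dim := by
    rw [hSd]
    exact hq.deg
  let Q : R0 C S := ofA q hqd
  have hQQ : Q * Q = Q := toA_inj (by
    rw [toA_mul]
    exact hq.idem)
  have hQnum : toA Q ∈ numFam C (S.prod S) S.dim := by
    rw [hSd]
    exact ⟨hq.deg, hq.num⟩
  have hQtr : trL hne S Q = 0 := trL_of_num hQnum
  have hfromP : (∀ (P : Family C) (hP : IsPrime C P), mk P hP.toIsAdequate S Q = 0) → q = 0 := by
    intro h
    obtain ⟨m, hm⟩ := isNilpotent_of_prime Q (fun P hP => ⟨1, by rw [pow_one, h P hP]⟩)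
    have h1 : ∀ m : ℕ, Q ^ (m + 1) = Q := by
      intro m
      induction m with
      | zero => rw [zero_add, pow_one]
      | succ m ih => rw [pow_succ, ih, hQQ]
    have h2 : Q = 0 := by rw [← h1 m, pow_succ, hm, zero_mul]
    have h3 : toA Q = 0 := by rw [h2, map_zero]
    exact h3
  tfae_have 1 → 2 := fun h P _ => (hfd h).mono (fun _ _ => bot_le)
  tfae_have 2 → 4 := by
    intro h
    apply hfromP
    intro P hP
    have hle : P ≤ numFam C := hP.toIsAdequate.le_numFam hP.one_notMem
    obtain ⟨f, hf1, ⟨n, hf2⟩, ⟨m, hf3⟩⟩ := (isKimuraFinite_iff _ S).1 (h P hP)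
    have hidem : mk P hP.toIsAdequate S f * mk P hP.toIsAdequate S f =
        mk P hP.toIsAdequate S f := by
      rw [← map_mul, ← sub_eq_zero, ← map_sub]
      exact mk_eq_zero.2 hf1
    have hs : ∀ a b : RP P hP.toIsAdequate S, trP hne P hP.toIsAdequate hle S (a * b) =
        trP hne P hP.toIsAdequate hle S (b * a) := fun a b => trP_comm a b
    have hrad : InRad (trP hne P hP.toIsAdequate hle S) (mk P hP.toIsAdequate S Q) := by
      intro γ
      obtain ⟨γ, rfl⟩ := Ideal.Quotient.mk_surjective γ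
      rw [← map_mul]
      change trP hne P hP.toIsAdequate hle S (mk P hP.toIsAdequate S (Q * γ)) = 0
      rw [trP_mk]
      apply trL_of_num
      exact adq_comp_right (isAdequate_numFam hne) (toA_mem γ) hQnum
    have hnil : IsNilpotent (mk P hP.toIsAdequate S Q) := by
      refine isNilpotent_of_inRad hs hidem (n := n) (m := m)
        (Dies.killed (hne := hne) hP.one_notMem hf2) ?_ hrad
      have := Dies.killed (hne := hne) (hP := hP.toIsAdequate) (hle := hle) hP.one_notMem hf3
      rwa [map_sub, map_one] at this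
    obtain ⟨l, hl⟩ := hnil
    have h1 : ∀ l : ℕ, mk P hP.toIsAdequate S Q ^ (l + 1) = mk P hP.toIsAdequate S Q := by
      intro l
      induction l with
      | zero => rw [zero_add, pow_one]
      | succ l ih => rw [pow_succ, ih, ← map_mul, hQQ]
    rw [← h1 l, pow_succ, hl, zero_mul]
  tfae_have 4 → 3 := by
    intro h P hP
    refine ⟨1, le_rfl, Or.inl fun W x y => ?_⟩
    have e : altPower C q x y = 0 := by
      rw [altPower_eq]
      have h1 := gr_one (X := S) true (fun _ : Fin 1 => q) x y
      rw [gr] at h1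
      rw [h1, h, ev, map_zero]
    rw [e]
    exact Submodule.zero_mem _
  tfae_have 3 → 4 := by
    intro h
    apply hfromP
    intro P hP
    obtain ⟨n, hn, h1⟩ := h P hP
    obtain ⟨n, rfl⟩ := Nat.exists_eq_add_of_le' hn
    rcases h1 with h1 | h1
    · apply mk_eq_zero_of_dies hne hP hQQ hQtr (s := true) (n := n)
      intro W x y
      have h2 := h1 W x y
      rwa [altPower_eq] at h2
    · apply mk_eq_zero_of_dies hne hP hQQ hQtr (s := false) (n := n)
      intro W x y
      have h2 := h1 W x y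
      rwa [symPower_eq] at h2
  tfae_have 4 → 1 := by
    intro h z hz
    rw [← hq.albanese z hz, h, C.act_zero]
  tfae_finish

end Pool.Agent.TH829.Kim
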